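import Pool.Agent.MP_18736b_co.Main

/-! Translation of the equality condition into the language of blocks. -/

namespace Pool.Agent.MP_18736b_co

open SimpleGraph

variable {V : Type*}

theorem preconn_iff {G : SimpleGraph V} (H : G.Subgraph) :
    H.Preconnected ↔ ∀ a ∈ H.verts, ∀ b ∈ H.verts, Relation.ReflTransGen H.Adj a b := by
  rw [Subgraph.preconnected_iff]
  constructor
  · intro h a ha b hb
    have h1 := h ⟨a, ha⟩ ⟨b, hb⟩
    rw [reachable_iff_reflTransGen] at h1
    exact Relation.ReflTransGen.lift (p := H.Adj) (fun x : H.verts => x.1) (fun _ _ h => h) _ _ h1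
  · rintro h ⟨a, ha⟩ ⟨b, hb⟩
    have h1 := h a ha b hb
    have : ∀ c, Relation.ReflTransGen H.Adj a c → ∀ hc : c ∈ H.verts,
        H.coe.Reachable ⟨a, ha⟩ ⟨c, hc⟩ := by
      intro c hac
      induction hac with
      | refl => intro _; exact Reachable.refl _
      | @tail c d _ hcd ih =>
        intro hd
        have hc : c ∈ H.verts := H.edge_vert hcd
        exact (ih hc).trans (Adj.reachable hcd)
    exact this b h1 hb

/-- connected without cut vertex -/
def NC {G : SimpleGraph V} (K : G.Subgraph) : Prop :=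
  K.Connected ∧ ∀ v ∈ K.verts, (K.deleteVerts {v}).Preconnected

theorem NC_iff {G : SimpleGraph V} (K : G.Subgraph) : NC K ↔
    K.verts.Nonempty ∧ (∀ a ∈ K.verts, ∀ b ∈ K.verts, Relation.ReflTransGen K.Adj a b) ∧
    ∀ v ∈ K.verts, ∀ a ∈ K.verts, ∀ b ∈ K.verts, a ≠ v → b ≠ v →
      Relation.ReflTransGen (fun x y => x ≠ v ∧ y ≠ v ∧ K.Adj x y) a b := by
  unfold NC
  rw [Subgraph.connected_iff, preconn_iff]
  constructor
  · rintro ⟨⟨h1, h2⟩, h3⟩
    refine ⟨h2, h1, ?_⟩
    intro v hv a ha b hb hav hbv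
    have h4 := h3 v hv
    rw [preconn_iff] at h4
    have h5 := h4 a ⟨ha, hav⟩ b ⟨hb, hbv⟩
    refine Relation.ReflTransGen.mono ?_ _ _ h5
    intro x y hxy
    rw [Subgraph.deleteVerts_adj] at hxy
    exact ⟨hxy.2.1, hxy.2.2.2.1, hxy.2.2.2.2⟩
  · rintro ⟨h1, h2, h3⟩
    refine ⟨⟨h2, h1⟩, ?_⟩
    intro v hv
    rw [preconn_iff]
    rintro a ⟨ha, hav⟩ b ⟨hb, hbv⟩
    have h5 := h3 v hv a ha b hb hav hbv
    refine Relation.ReflTransGen.mono ?_ _ _ h5
    intro x y hxy
    rw [Subgraph.deleteVerts_adj]
    exact ⟨K.edge_vert hxy.2.2, hxy.1, K.edge_vert hxy.2.2.symm, hxy.2.1, hxy.2.2⟩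

theorem NC.mono_adj {G : SimpleGraph V} {K K' : G.Subgraph} (h : NC K) (hv : K'.verts = K.verts)
    (ha : ∀ x y, K.Adj x y → K'.Adj x y) : NC K' := by
  rw [NC_iff] at h ⊢
  rw [hv]
  refine ⟨h.1, ?_, ?_⟩
  · intro a ha' b hb
    exact Relation.ReflTransGen.mono ha _ _ (h.2.1 a ha' b hb)
  · intro v hv a ha' b hb hav hbv
    exact Relation.ReflTransGen.mono (fun x y hxy => ⟨hxy.1, hxy.2.1, ha x y hxy.2.2⟩) _ _
      (h.2.2 v hv a ha' b hb hav hbv)

/-- two hubs -/
theorem NC_hubs {G : SimpleGraph V} {S : Set V} {a b : V} (ha : a ∈ S) (hb : b ∈ S) (hab : a ≠ b)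
    (h1 : ∀ x ∈ S, x ≠ a → G.Adj x a) (h2 : ∀ x ∈ S, x ≠ b → G.Adj x b) :
    NC ((⊤ : G.Subgraph).induce S) := by
  rw [NC_iff]
  have key : ∀ c ∈ S, (∀ x ∈ S, x ≠ c → G.Adj x c) → ∀ v, c ≠ v → ∀ x ∈ S, ∀ y ∈ S, x ≠ v → y ≠ v →
      Relation.ReflTransGen (fun x y => x ≠ v ∧ y ≠ v ∧ ((⊤ : G.Subgraph).induce S).Adj x y) x y := by
    intro c hc hhub v hcv x hx y hy hxv hyv
    have e1 : Relation.ReflTransGen
        (fun x y => x ≠ v ∧ y ≠ v ∧ ((⊤ : G.Subgraph).induce S).Adj x y) x c := by
      by_cases hxc : x = c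
      · rw [hxc]
      · exact Relation.ReflTransGen.single ⟨hxv, hcv, hx, hc, hhub x hx hxc⟩
    have e2 : Relation.ReflTransGen
        (fun x y => x ≠ v ∧ y ≠ v ∧ ((⊤ : G.Subgraph).induce S).Adj x y) c y := by
      by_cases hyc : y = c
      · rw [hyc]
      · exact Relation.ReflTransGen.single ⟨hcv, hyv, hc, hy, (hhub y hy hyc).symm⟩
    exact e1.trans e2
  refine ⟨⟨a, ha⟩, ?_, ?_⟩
  · intro x hx y hy
    have e1 : Relation.ReflTransGen ((⊤ : G.Subgraph).induce S).Adj x a := by
      by_cases hxc : x = a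
      · rw [hxc]
      · exact Relation.ReflTransGen.single ⟨hx, ha, h1 x hx hxc⟩
    have e2 : Relation.ReflTransGen ((⊤ : G.Subgraph).induce S).Adj a y := by
      by_cases hyc : y = a
      · rw [hyc]
      · exact Relation.ReflTransGen.single ⟨ha, hy, (h1 y hy hyc).symm⟩
    exact e1.trans e2
  · intro v hv x hx y hy hxv hyv
    by_cases hav : a = v
    · exact key b hb h2 v (fun h => hab (hav.trans h.symm)) x hx y hy hxv hyv
    · exact key a ha h1 v hav x hx y hy hxv hyv

theorem chain_reach {R : V → V → Prop} (hsymm : ∀ x y, R x y → R y x) {l : List V}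
    (hl : l.IsChain R) : ∀ x ∈ l, ∀ y ∈ l, Relation.ReflTransGen R x y := by
  induction l with
  | nil => intro x hx; simp at hx
  | cons a l ih =>
    rw [List.isChain_cons] at hl
    have ih' := ih hl.2
    have hhead : ∀ y ∈ l, Relation.ReflTransGen R a y ∧ Relation.ReflTransGen R y a := by
      intro y hy
      rcases l with _ | ⟨b, l⟩
      · simp at hy
      · have hab : R a b := hl.1 b (by simp)
        exact ⟨(Relation.ReflTransGen.single hab).trans (ih' b (by simp) y hy),
          (ih' y hy b (by simp)).trans (Relation.ReflTransGen.single (hsymm _ _ hab))⟩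
    intro x hx y hy
    rw [List.mem_cons] at hx hy
    rcases hx with rfl | hx
    · rcases hy with rfl | hy
      · exact Relation.ReflTransGen.refl
      · exact (hhead y hy).1
    · rcases hy with rfl | hy
      · exact (hhead x hx).2
      · exact ih' x hx y hy

theorem NC_cyc {G : SimpleGraph V} {l : List V} (hl : Cyc G l) :
    NC ((⊤ : G.Subgraph).induce {x | x ∈ l}) := by
  rw [NC_iff]
  have hne := hl.ne_nil
  refine ⟨?_, ?_, ?_⟩
  · exact ⟨l.head hne, List.head_mem hne⟩
  · have h1 : l.IsChain ((⊤ : G.Subgraph).induce {x | x ∈ l}).Adj :=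
      hl.2.2.1.imp_of_mem_imp (fun a b ha hb hab => ⟨ha, hb, hab⟩)
    exact fun a ha b hb => chain_reach (fun x y h => h.symm) h1 a ha b hb
  · intro v hv a ha b hb hav hbv
    obtain ⟨l₁, l₂, h⟩ := List.append_of_mem hv
    have hrot : Cyc G (v :: (l₂ ++ l₁)) := by
      rw [h] at hl
      have := hl.rotate
      rwa [List.cons_append] at this
    have hmem : ∀ x, x ∈ l₂ ++ l₁ → x ∈ l := by
      intro x hx
      rw [h]
      simp only [List.mem_append, List.mem_cons] at hx ⊢
      tauto
    have hnd := List.nodup_cons.mp hrot.2.1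
    have h1 : (l₂ ++ l₁).IsChain
        (fun x y => x ≠ v ∧ y ≠ v ∧ ((⊤ : G.Subgraph).induce {x | x ∈ l}).Adj x y) := by
      refine (List.isChain_cons.mp hrot.2.2.1).2.imp_of_mem_imp ?_
      intro x y hx hy hxy
      refine ⟨?_, ?_, hmem x hx, hmem y hy, hxy⟩
      · rintro rfl; exact hnd.1 hx
      · rintro rfl; exact hnd.1 hy
    apply chain_reach (fun x y h => ⟨h.2.1, h.1, h.2.2.symm⟩) h1
    · have : a ∈ l₁ ++ v :: l₂ := h ▸ ha
      simp only [List.mem_append, List.mem_cons] at this ⊢
      tauto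
    · have : b ∈ l₁ ++ v :: l₂ := h ▸ hb
      simp only [List.mem_append, List.mem_cons] at this ⊢
      tauto

theorem exists_block [Finite V] {G : SimpleGraph V} {K : G.Subgraph} (hK : NC K) :
    ∃ H : G.Subgraph, IsBlock G H ∧ K ≤ H := by
  obtain ⟨H, hKH, hH⟩ := (Set.toFinite {K : G.Subgraph | NC K}).exists_le_maximal hK
  exact ⟨H, hH, hKH⟩

/-- the property of blocks in the equality condition -/
def GoodBlocks (G : SimpleGraph V) (t : ℕ) : Prop :=
  ∀ H : G.Subgraph, IsBlock G H →
    (∃ v, H.verts = {v} ∧ ∀ w, ¬ G.Adj v w) ∨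
    (t ≤ H.verts.ncard ∧ ∀ u ∈ H.verts, ∀ w ∈ H.verts, u ≠ w → H.Adj u w)

theorem Q_of_good [Fintype V] {G : SimpleGraph V} {t : ℕ} (ht : 3 ≤ t) (hG : GoodBlocks G t) :
    Q G t := by
  classical
  refine ⟨?_, ?_⟩
  · intro l hl a ha b hb hab
    obtain ⟨H, hH, hle⟩ := exists_block (NC_cyc hl)
    have haH : a ∈ H.verts := hle.1 ha
    have hbH : b ∈ H.verts := hle.1 hb
    rcases hG H hH with ⟨v, hv, _⟩ | ⟨_, h⟩
    · rw [hv] at haH hbH
      exact absurd (haH.trans hbH.symm) hab
    · exact (h a haH b hbH hab).adj_sub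
  · intro a b hab
    have hNC : NC ((⊤ : G.Subgraph).induce {a, b}) := by
      apply NC_hubs (a := a) (b := b) (by simp) (by simp) hab.ne
      · intro x hx hxa
        simp only [Set.mem_insert_iff, Set.mem_singleton_iff] at hx
        rcases hx with rfl | rfl
        · exact absurd rfl hxa
        · exact hab.symm
      · intro x hx hxb
        simp only [Set.mem_insert_iff, Set.mem_singleton_iff] at hx
        rcases hx with rfl | rfl
        · exact hab
        · exact absurd rfl hxb
    obtain ⟨H, hH, hle⟩ := exists_block hNC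
    have haH : a ∈ H.verts := hle.1 (by simp)
    have hbH : b ∈ H.verts := hle.1 (by simp)
    rcases hG H hH with ⟨v, hv, _⟩ | ⟨h1, h2⟩
    · rw [hv] at haH hbH
      exact absurd (haH.trans hbH.symm) hab.ne
    · obtain ⟨T, hT1, hT2, hT3⟩ := Finset.exists_subsuperset_card_eq
        (s := {a, b}) (t := H.verts.toFinset) (n := t)
        (by intro x hx; simp only [Finset.mem_insert, Finset.mem_singleton] at hx
            rw [Set.mem_toFinset]
            rcases hx with rfl | rfl <;> assumption)
        (by rw [Finset.card_pair hab.ne]; omega) (by rw [← Set.ncard_eq_toFinset_card']; exact h1)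
      refine ⟨T, ?_, hT1 (by simp), hT1 (by simp)⟩
      rw [mem_Kt]
      refine ⟨?_, hT3⟩
      intro x hx y hy hxy
      have hx' := hT2 hx
      have hy' := hT2 hy
      rw [Set.mem_toFinset] at hx' hy'
      exact (h2 x hx' y hy' hxy).adj_sub

theorem good_of_Q [Fintype V] {G : SimpleGraph V} {t : ℕ} (hQ : Q G t) :
    GoodBlocks G t := by
  classical
  intro H hH
  have hNC : NC H := hH.prop
  have hmax : ∀ K : G.Subgraph, NC K → H ≤ K → K ≤ H := fun K hK hle => hH.le_of_ge hK hle
  have hNC' := (NC_iff H).mp hNC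
  obtain ⟨⟨v, hv⟩, hconn, hcut⟩ := hNC'
  -- `H` is induced
  have hind : ∀ x ∈ H.verts, ∀ y ∈ H.verts, G.Adj x y → H.Adj x y := by
    intro x hx y hy hxy
    have h1 : NC ((⊤ : G.Subgraph).induce H.verts) :=
      hNC.mono_adj rfl (fun x y h => ⟨H.edge_vert h, H.edge_vert h.symm, h.adj_sub⟩)
    have h2 : H ≤ (⊤ : G.Subgraph).induce H.verts :=
      ⟨le_rfl, fun x y h => ⟨H.edge_vert h, H.edge_vert h.symm, h.adj_sub⟩⟩
    exact (hmax _ h1 h2).2 ⟨hx, hy, hxy⟩
  by_cases hsub : ∀ w ∈ H.verts, w = v
  · left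
    refine ⟨v, Set.eq_singleton_iff_unique_mem.mpr ⟨hv, hsub⟩, ?_⟩
    intro w hvw
    have h1 : NC ((⊤ : G.Subgraph).induce {v, w}) := by
      apply NC_hubs (a := v) (b := w) (by simp) (by simp) hvw.ne
      · intro x hx hxa
        simp only [Set.mem_insert_iff, Set.mem_singleton_iff] at hx
        rcases hx with rfl | rfl
        · exact absurd rfl hxa
        · exact hvw.symm
      · intro x hx hxb
        simp only [Set.mem_insert_iff, Set.mem_singleton_iff] at hx
        rcases hx with rfl | rfl
        · exact hvw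
        · exact absurd rfl hxb
    have h2 : H ≤ (⊤ : G.Subgraph).induce {v, w} := by
      refine ⟨?_, ?_⟩
      · intro x hx
        rw [hsub x hx]
        simp
      · intro x y hxy
        have hx := hsub x (H.edge_vert hxy)
        have hy := hsub y (H.edge_vert hxy.symm)
        rw [hx, hy] at hxy
        exact absurd hxy.adj_sub (G.loopless.irrefl _)
    have h3 := (hmax _ h1 h2).1 (show w ∈ ((⊤ : G.Subgraph).induce {v, w}).verts by simp)
    exact hvw.ne (hsub w h3).symm
  · right
    push Not at hsub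
    obtain ⟨v', hv', hvv'⟩ := hsub
    have htrans : ∀ u w z, H.Adj u w → H.Adj w z → u ≠ z → H.Adj u z := by
      intro u w z huw hwz huz
      have hu : u ∈ H.verts := H.edge_vert huw
      have hw : w ∈ H.verts := H.edge_vert hwz
      have hz : z ∈ H.verts := H.edge_vert hwz.symm
      have hr := hcut w hw u hu z hz huw.adj_sub.ne hwz.adj_sub.ne'
      -- turn into a path
      let F : SimpleGraph V :=
        { Adj := fun x y => x ≠ w ∧ y ≠ w ∧ H.Adj x y
          symm := ⟨fun _ _ h => ⟨h.2.1, h.1, h.2.2.symm⟩⟩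
          loopless := ⟨fun _ h => G.loopless.irrefl _ h.2.2.adj_sub⟩ }
      have hr' : F.Reachable u z := (reachable_iff_reflTransGen u z).mpr hr
      obtain ⟨p, hp⟩ := hr'.exists_isPath
      have hch : p.support.IsChain G.Adj :=
        p.isChain_adj_support.imp (fun _ _ h => h.2.2.adj_sub)
      have hws : w ∉ p.support := by
        have : ∀ {u z : V} (p : F.Walk u z), u ≠ w → w ∉ p.support := by
          intro u z p
          induction p with
          | nil => intro h; simpa using h.symm
          | cons h p ih =>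
            intro hu
            rw [Walk.support_cons, List.mem_cons, not_or]
            exact ⟨hu.symm, ih h.2.1⟩
        exact this p huw.adj_sub.ne
      have hlen : 2 ≤ p.support.length := by
        rw [Walk.length_support]
        have : p.length ≠ 0 := fun h => huz (Walk.eq_of_length_eq_zero h)
        omega
      have hC : Cyc G (w :: p.support) := by
        refine ⟨by rw [List.length_cons]; omega, List.nodup_cons.mpr ⟨hws, hp.support_nodup⟩,
          ?_, ?_⟩
        · rw [List.isChain_cons]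
          refine ⟨?_, hch⟩
          intro y hy
          rw [List.head?_eq_some_head p.support_ne_nil, Walk.head_support] at hy
          simp only [Option.mem_def, Option.some.injEq] at hy
          rw [← hy]
          exact huw.adj_sub.symm
        · intro x hx y hy
          rw [List.getLast?_cons_of_ne_nil p.support_ne_nil,
            List.getLast?_eq_some_getLast p.support_ne_nil, Walk.getLast_support] at hx
          simp only [Option.mem_def, Option.some.injEq, List.head?_cons] at hx hy
          rw [← hx, ← hy]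
          exact hwz.adj_sub.symm
      apply hind u hu z hz
      exact hQ.1 _ hC u (List.mem_cons_of_mem _ p.start_mem_support) z
        (List.mem_cons_of_mem _ p.end_mem_support) huz
    have hcomp : ∀ u ∈ H.verts, ∀ w ∈ H.verts, u ≠ w → H.Adj u w := by
      intro u hu w hw
      have h1 := hconn u hu w hw
      clear hw
      induction h1 with
      | refl => intro h; exact absurd rfl h
      | @tail c d _ hcd ih =>
        intro hne
        by_cases huc : u = c
        · rw [huc]; exact hcd
        · exact htrans u c d (ih huc) hcd hne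
    refine ⟨?_, hcomp⟩
    have hadj := hcomp v' hv' v hv hvv'
    obtain ⟨T, hT, hv'T, hvT⟩ := hQ.2 v' v hadj.adj_sub
    rw [mem_Kt] at hT
    have hNC2 : NC ((⊤ : G.Subgraph).induce (H.verts ∪ T)) := by
      apply NC_hubs (a := v') (b := v) (Or.inl hv') (Or.inl hv) hvv'
      · intro x hx hne
        rcases hx with hx | hx
        · exact (hcomp x hx v' hv' hne).adj_sub
        · exact hT.isClique hx hv'T hne
      · intro x hx hne
        rcases hx with hx | hx
        · exact (hcomp x hx v hv hne).adj_sub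
        · exact hT.isClique hx hvT hne
    have hle2 : H ≤ (⊤ : G.Subgraph).induce (H.verts ∪ T) :=
      ⟨Set.subset_union_left, fun x y h => ⟨Or.inl (H.edge_vert h), Or.inl (H.edge_vert h.symm),
        h.adj_sub⟩⟩
    have hsub := (hmax _ hNC2 hle2).1
    have hTH : (T : Set V) ⊆ H.verts := fun x hx => hsub (Or.inr hx)
    calc t = T.card := hT.card_eq.symm
      _ = (T : Set V).ncard := (Set.ncard_coe_finset T).symm
      _ ≤ H.verts.ncard := Set.ncard_le_ncard hTH (Set.toFinite _)

end Pool.Agent.MP_18736b_co
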