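import Mathlib

/-! Definitions for the statement on circumference-weighted clique counts. -/

namespace Pool.Agent.MP_18736b_co

/-- `γ_G(T)`: the largest length of a cycle of `G` passing through every vertex of `T`. -/
noncomputable def gam {V : Type*} (G : SimpleGraph V) (T : Finset V) : ℕ :=
  sSup {k : ℕ | ∃ (v : V) (c : G.Walk v v), c.IsCycle ∧ c.length = k ∧ ∀ x ∈ T, x ∈ c.support}

/-- The weight `c'_G(T) = C(γ, 2) / C(γ, t)`, where `γ = γ_G(T)` and `t = |T|`. -/
noncomputable def weight {V : Type*} (G : SimpleGraph V) (T : Finset V) : ℚ :=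
  ((gam G T).choose 2 : ℚ) / ((gam G T).choose T.card : ℚ)

/-- A block of `G`: a maximal connected subgraph without a cut vertex. (Deleting a vertex of a
connected graph that is not a cut vertex leaves a preconnected, possibly empty, graph.) -/
def IsBlock {V : Type*} (G : SimpleGraph V) (H : G.Subgraph) : Prop :=
  Maximal (fun K : G.Subgraph => K.Connected ∧ ∀ v ∈ K.verts, (K.deleteVerts {v}).Preconnected) H

end Pool.Agent.MP_18736b_co
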