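import Mathlib

/-! A Dirac-type lemma: in a graph that is 2-connected on its support there is either a cycle
through all non-isolated vertices, or a vertex `v` whose closed neighbourhood lies on a cycle of
length at least `2 * deg v`. Paths and cycles are handled as lists of vertices. -/

namespace Pool.Agent.MP_18736b_co

open SimpleGraph

variable {V : Type*}

/-- `l` lists, in cyclic order, the vertices of a cycle of `G`. -/
def Cyc (G : SimpleGraph V) (l : List V) : Prop :=
  3 ≤ l.length ∧ l.Nodup ∧ l.IsChain G.Adj ∧ ∀ x ∈ l.getLast?, ∀ y ∈ l.head?, G.Adj x y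

/-- the list `f a, ..., f (b - 1)` -/
def seg (f : ℕ → V) (a b : ℕ) : List V := (List.range' a (b - a)).map f

theorem mem_seg {f : ℕ → V} {a b : ℕ} {y : V} : y ∈ seg f a b ↔ ∃ j, a ≤ j ∧ j < b ∧ f j = y := by
  unfold seg
  rw [List.mem_map]
  constructor
  · rintro ⟨j, hj, rfl⟩
    rw [List.mem_range'_1] at hj
    exact ⟨j, hj.1, by omega, rfl⟩
  · rintro ⟨j, h1, h2, rfl⟩
    exact ⟨j, by rw [List.mem_range'_1]; omega, rfl⟩

theorem length_seg {f : ℕ → V} {a b : ℕ} : (seg f a b).length = b - a := by
  simp [seg]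

theorem head?_seg {f : ℕ → V} {a b : ℕ} (h : a < b) : (seg f a b).head? = some (f a) := by
  obtain ⟨c, rfl⟩ : ∃ c, b = a + (c + 1) := ⟨b - a - 1, by omega⟩
  simp [seg, List.range'_succ]

theorem getLast?_seg {f : ℕ → V} {a b : ℕ} (h : a < b) :
    (seg f a b).getLast? = some (f (b - 1)) := by
  obtain ⟨c, rfl⟩ : ∃ c, b = a + (c + 1) := ⟨b - a - 1, by omega⟩
  have : a + (c + 1) - a = c + 1 := by omega
  simp only [seg, this, List.range'_concat, List.map_append, List.map_cons, List.map_nil,
    List.getLast?_append]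
  simp

/-- data of a longest path `f 0, ..., f (ℓ - 1)` -/
structure LPath (G : SimpleGraph V) (f : ℕ → V) (ℓ : ℕ) : Prop where
  inj : ∀ i j, i < ℓ → j < ℓ → f i = f j → i = j
  adj : ∀ i, i + 1 < ℓ → G.Adj (f i) (f (i + 1))
  max : ∀ l : List V, l.IsChain G.Adj → l.Nodup → l.length ≤ ℓ

/-- the vertex set of the path -/
def PX (f : ℕ → V) (ℓ : ℕ) : Set V := {y | ∃ j, j < ℓ ∧ f j = y}

theorem nodup_seg {G : SimpleGraph V} {f : ℕ → V} {ℓ : ℕ} (hP : LPath G f ℓ) {a b : ℕ}
    (hb : b ≤ ℓ) : (seg f a b).Nodup := by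
  unfold seg
  apply List.Nodup.map_on
  · intro x hx y hy h
    rw [List.mem_range'_1] at hx hy
    exact hP.inj x y (by omega) (by omega) h
  · exact List.nodup_range'

theorem chain_seg {G : SimpleGraph V} {f : ℕ → V} {ℓ : ℕ} (hP : LPath G f ℓ) {a b : ℕ}
    (hb : b ≤ ℓ) : (seg f a b).IsChain G.Adj := by
  rcases Nat.lt_or_ge a b with h | h
  · obtain ⟨c, rfl⟩ : ∃ c, b = a + c := ⟨b - a, by omega⟩
    clear h
    induction c with
    | zero => simp [seg]
    | succ c ih =>
      have h1 : seg f a (a + (c + 1)) = seg f a (a + c) ++ [f (a + c)] := by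
        have : a + (c + 1) - a = c + 1 := by omega
        have h2 : a + c - a = c := by omega
        simp [seg, this, h2, List.range'_concat]
      rw [h1, List.isChain_append]
      refine ⟨ih (by omega), by simp, ?_⟩
      intro x hx y hy
      rcases Nat.eq_zero_or_pos c with rfl | hc
      · simp [seg] at hx
      · rw [getLast?_seg (by omega)] at hx
        simp only [Option.mem_def, Option.some.injEq, List.head?_cons] at hx hy
        subst hx hy
        have := hP.adj (a + c - 1) (by omega)
        have h3 : a + c - 1 + 1 = a + c := by omega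
        rwa [h3] at this
  · have : seg f a b = [] := by
      unfold seg
      have : b - a = 0 := by omega
      simp [this]
    rw [this]
    simp

theorem chain_reverse {G : SimpleGraph V} {l : List V} (h : l.IsChain G.Adj) :
    l.reverse.IsChain G.Adj := by
  rw [List.isChain_reverse]
  exact h.imp (fun _ _ h => h.symm)

/-- the graph of edges avoiding the path -/
def offG (G : SimpleGraph V) (X : Set V) : SimpleGraph V where
  Adj u w := G.Adj u w ∧ u ∉ X ∧ w ∉ X
  symm := ⟨fun _ _ h => ⟨h.1.symm, h.2.2, h.2.1⟩⟩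
  loopless := ⟨fun _ h => G.loopless.irrefl _ h.1⟩

/-- `b` can be reached from `a` with all internal vertices off `X` -/
def Ear (G : SimpleGraph V) (X : Set V) (a b : V) : Prop :=
  G.Adj a b ∨ ∃ u w, G.Adj a u ∧ u ∉ X ∧ w ∉ X ∧ G.Adj w b ∧ (offG G X).Reachable u w

theorem reachable_off {G : SimpleGraph V} {X : Set V} {u w : V} (hu : u ∉ X)
    (p : (offG G X).Walk u w) : ∀ y ∈ p.support, y ∉ X := by
  induction p with
  | nil => intro y hy; simp at hy; rw [hy]; exact hu
  | cons h p ih =>
    intro y hy
    rw [Walk.support_cons, List.mem_cons] at hy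
    rcases hy with rfl | hy
    · exact hu
    · exact ih h.2.2 y hy

theorem exists_ear_list {G : SimpleGraph V} {X : Set V} {a b : V} (h : Ear G X a b) :
    ∃ m : List V, (a :: (m ++ [b])).IsChain G.Adj ∧ m.Nodup ∧ (∀ y ∈ m, y ∉ X) ∧
      (∀ y ∈ m, ∃ u, u ∉ X ∧ G.Adj a u ∧ (offG G X).Reachable u y) ∧
      (∀ y ∈ m, ∃ w, w ∉ X ∧ G.Adj w b ∧ (offG G X).Reachable y w) := by
  classical
  rcases h with h | ⟨u, w, hau, hu, hw, hwb, hr⟩
  · exact ⟨[], by simpa using h, by simp, by simp, by simp, by simp⟩
  · obtain ⟨p, hp⟩ := hr.exists_isPath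
    refine ⟨p.support, ?_, hp.support_nodup, reachable_off hu p, ?_, ?_⟩
    · have h1 : p.support.IsChain G.Adj := p.isChain_adj_support.imp (fun _ _ h => h.1)
      rw [List.isChain_cons]
      refine ⟨?_, ?_⟩
      · intro y hy
        rw [List.head?_append] at hy
        rw [List.head?_eq_some_head p.support_ne_nil] at hy
        simp at hy
        rw [← hy]; exact hau
      · rw [List.isChain_append]
        refine ⟨h1, by simp, ?_⟩
        intro x hx y hy
        rw [List.getLast?_eq_some_getLast p.support_ne_nil] at hx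
        simp at hx hy
        rw [← hx, ← hy]
        exact hwb
    · intro y hy
      exact ⟨u, hu, hau, ⟨p.takeUntil y hy⟩⟩
    · intro y hy
      exact ⟨w, hw, hwb, ⟨p.dropUntil y hy⟩⟩

/-- 2-connectedness on the set of non-isolated vertices -/
def TwoConn (G : SimpleGraph V) : Prop :=
  ∀ x a b, a ∈ G.support → b ∈ G.support → a ≠ x → b ≠ x →
    (G.deleteIncidenceSet x).Reachable a b

theorem mem_PX {f : ℕ → V} {ℓ j : ℕ} (h : j < ℓ) : f j ∈ PX f ℓ := ⟨j, h, rfl⟩

theorem exists_crossing_ear {G : SimpleGraph V} {f : ℕ → V} {ℓ : ℕ} (hP : LPath G f ℓ)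
    (h2 : TwoConn G) {i : ℕ} (hi : 0 < i) (hi' : i + 1 < ℓ) :
    ∃ s q, s < i ∧ i < q ∧ q < ℓ ∧ Ear G (PX f ℓ) (f s) (f q) := by
  by_contra hno
  push Not at hno
  let S : Set V := {y | (∃ s, s < i ∧ f s = y) ∨ (y ∉ PX f ℓ ∧ ∃ s, s < i ∧ ∃ u, u ∉ PX f ℓ ∧
    G.Adj (f s) u ∧ (offG G (PX f ℓ)).Reachable u y)}
  have hclosed : ∀ y z, y ∈ S → (G.deleteIncidenceSet (f i)).Adj y z → z ∈ S := by
    intro y z hy hyz
    rw [deleteIncidenceSet_adj] at hyz
    obtain ⟨hyz, _, hzi⟩ := hyz
    by_cases hz : z ∈ PX f ℓ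
    · obtain ⟨j, hj, rfl⟩ := hz
      left
      refine ⟨j, ?_, rfl⟩
      by_contra hji
      have hji' : i < j := by
        rcases Nat.lt_or_ge i j with h | h
        · exact h
        · have : j = i := by omega
          subst this
          exact absurd rfl hzi
      rcases hy with ⟨s, hs, rfl⟩ | ⟨hy, s, hs, u, hu, hsu, hr⟩
      · exact hno s j hs hji' hj (Or.inl hyz)
      · exact hno s j hs hji' hj (Or.inr ⟨u, y, hsu, hu, hy, hyz, hr⟩)
    · right
      refine ⟨hz, ?_⟩
      rcases hy with ⟨s, hs, rfl⟩ | ⟨hy, s, hs, u, hu, hsu, hr⟩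
      · exact ⟨s, hs, z, hz, hyz, Reachable.refl _⟩
      · refine ⟨s, hs, u, hu, hsu, hr.trans ?_⟩
        exact Adj.reachable (show (offG G (PX f ℓ)).Adj y z from ⟨hyz, hy, hz⟩)
  have hsup : ∀ j, j < ℓ → f j ∈ G.support := by
    intro j hj
    rw [mem_support]
    rcases Nat.eq_zero_or_pos j with rfl | hj0
    · exact ⟨_, hP.adj 0 (by omega)⟩
    · refine ⟨f (j - 1), ?_⟩
      have := hP.adj (j - 1) (by omega)
      rw [show j - 1 + 1 = j by omega] at this
      exact this.symm
  have hr := h2 (f i) (f 0) (f (ℓ - 1)) (hsup 0 (by omega)) (hsup (ℓ - 1) (by omega))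
    (fun h => by have := hP.inj _ _ (by omega) (by omega) h; omega)
    (fun h => by have := hP.inj _ _ (by omega) (by omega) h; omega)
  obtain ⟨w⟩ := hr
  have hwalk : ∀ {a b : V} (w : (G.deleteIncidenceSet (f i)).Walk a b), a ∈ S → b ∈ S := by
    intro a b w
    induction w with
    | nil => exact id
    | cons h p ih => exact fun ha => ih (hclosed _ _ ha h)
  have hlast := hwalk w (Or.inl ⟨0, hi, rfl⟩)
  rcases hlast with ⟨s, hs, h⟩ | ⟨h, _⟩
  · have := hP.inj _ _ (by omega) (by omega) h
    omega
  · exact h (mem_PX (by omega))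

theorem exists_max_ear {G : SimpleGraph V} {f : ℕ → V} {ℓ : ℕ} (hP : LPath G f ℓ)
    (h2 : TwoConn G) {i : ℕ} (hi : 0 < i) (hi' : i + 1 < ℓ) :
    ∃ s q, s < i ∧ i < q ∧ q < ℓ ∧ Ear G (PX f ℓ) (f s) (f q) ∧
      ∀ q', q < q' → q' < ℓ → ∀ s' < i, ¬ Ear G (PX f ℓ) (f s') (f q') := by
  classical
  obtain ⟨s, q, hs, hq, hql, he⟩ := exists_crossing_ear hP h2 hi hi'
  let A := (Finset.range ℓ).filter (fun q => i < q ∧ ∃ s < i, Ear G (PX f ℓ) (f s) (f q))
  have hA : A.Nonempty := ⟨q, by simp only [A, Finset.mem_filter, Finset.mem_range]; exact ⟨hql, hq, s, hs, he⟩⟩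
  obtain ⟨q1, hq1, hq1max⟩ := A.exists_max_image id hA
  simp only [A, Finset.mem_filter, Finset.mem_range] at hq1
  obtain ⟨h1, h2, s1, hs1, he1⟩ := hq1
  refine ⟨s1, q1, hs1, h2, h1, he1, ?_⟩
  intro q' hq' hq'l s' hs' he'
  have : q' ∈ A := by
    simp only [A, Finset.mem_filter, Finset.mem_range]
    exact ⟨hq'l, by omega, s', hs', he'⟩
  have := hq1max q' this
  simp only [id] at this
  omega

/-- invariant of the construction of the chain of ears -/
structure Inv (G : SimpleGraph V) (f : ℕ → V) (ℓ i q : ℕ) (L : List V) : Prop where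
  ipos : 0 < i
  iq : i < q
  ql : q < ℓ
  chain : L.IsChain G.Adj
  nodup : L.Nodup
  head : L.head? = some (f i)
  last : L.getLast? = some (f q)
  only : ∀ j, i ≤ j → j < ℓ → f j ∈ L → j = i ∨ j = q
  max : ∀ q', q < q' → q' < ℓ → ∀ s' < i, ¬ Ear G (PX f ℓ) (f s') (f q')
  off : ∀ x ∈ L, x ∉ PX f ℓ → ∃ s < i, ∃ u, u ∉ PX f ℓ ∧ G.Adj (f s) u ∧
    (offG G (PX f ℓ)).Reachable u x
  nb : ∀ w, (w = f 0 ∨ G.Adj (f 0) w) → w ∈ L

theorem inv_step {G : SimpleGraph V} {f : ℕ → V} {ℓ : ℕ} (hP : LPath G f ℓ)
    (h2 : TwoConn G) {i q : ℕ} {L : List V} (hI : Inv G f ℓ i q L) (hq : q + 1 < ℓ) :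
    ∃ q' L', Inv G f ℓ q q' L' := by
  have hiq := hI.iq
  have hipos := hI.ipos
  obtain ⟨s, q', hs, hq', hq'l, he, hmax⟩ := exists_max_ear hP h2 (show 0 < q by omega) hq
  have hsi : i ≤ s := by
    by_contra h
    exact hI.max q' hq' hq'l s (by omega) he
  obtain ⟨m, hm1, hm2, hm3, hm4, hm5⟩ := exists_ear_list he
  have hsegL : ∀ y ∈ seg f (i+1) (s+1), y ∉ L := by
    intro y hy hyL
    obtain ⟨j, hj1, hj2, rfl⟩ := mem_seg.mp hy
    rcases hI.only j (by omega) (by omega) hyL with h | h <;> omega
  have hmL : ∀ y ∈ m, y ∉ L := by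
    intro y hy hyL
    obtain ⟨s', hs', u, hu, hsu, hr⟩ := hI.off y hyL (hm3 y hy)
    obtain ⟨w, hw, hwq, hr'⟩ := hm5 y hy
    exact hI.max q' hq' hq'l s' hs' (Or.inr ⟨u, w, hsu, hu, hw, hwq, hr.trans hr'⟩)
  have hqL : f q' ∉ L := by
    intro h
    rcases hI.only q' (by omega) hq'l h with h | h <;> omega
  have hchm := List.isChain_cons.mp hm1
  refine ⟨q', L.reverse ++ (seg f (i+1) (s+1) ++ (m ++ [f q'])), ?_⟩
  refine ⟨by omega, hq', hq'l, ?_, ?_, ?_, ?_, ?_, hmax, ?_, ?_⟩
  · -- chain
    rw [List.isChain_append]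
    refine ⟨chain_reverse hI.chain, ?_, ?_⟩
    · rw [List.isChain_append]
      refine ⟨chain_seg hP (by omega), hchm.2, ?_⟩
      intro x hx y hy
      rcases Nat.lt_or_ge i s with h | h
      · rw [getLast?_seg (by omega)] at hx
        simp only [Option.mem_def, Option.some.injEq] at hx
        have : s + 1 - 1 = s := by omega
        rw [this] at hx
        subst hx
        exact hchm.1 y hy
      · have : seg f (i+1) (s+1) = [] := by
          unfold seg
          have : s + 1 - (i + 1) = 0 := by omega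
          simp [this]
        rw [this] at hx
        simp at hx
    · intro x hx y hy
      rw [List.getLast?_reverse, hI.head] at hx
      simp only [Option.mem_def, Option.some.injEq] at hx
      subst hx
      rcases Nat.lt_or_ge i s with h | h
      · rw [List.head?_append, head?_seg (by omega)] at hy
        simp only [Option.some_or, Option.mem_def, Option.some.injEq] at hy
        subst hy
        exact hP.adj i (by omega)
      · have h3 : seg f (i+1) (s+1) = [] := by
          unfold seg
          have : s + 1 - (i + 1) = 0 := by omega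
          simp [this]
        rw [h3, List.nil_append] at hy
        have : i = s := by omega
        rw [this]
        exact hchm.1 y hy
  · -- nodup
    rw [List.nodup_append', List.nodup_append', List.nodup_append']
    refine ⟨List.nodup_reverse.mpr hI.nodup, ⟨nodup_seg hP (by omega), ⟨hm2, by simp, ?_⟩, ?_⟩, ?_⟩
    · intro y hy hy'
      simp only [List.mem_singleton] at hy'
      subst hy'
      exact hm3 _ hy (mem_PX hq'l)
    · intro y hy hy'
      obtain ⟨j, hj1, hj2, rfl⟩ := mem_seg.mp hy
      simp only [List.mem_append, List.mem_singleton] at hy'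
      rcases hy' with h | h
      · exact hm3 _ h (mem_PX (by omega))
      · have := hP.inj _ _ (by omega) hq'l h
        omega
    · intro y hy hy'
      rw [List.mem_reverse] at hy
      simp only [List.mem_append, List.mem_singleton] at hy'
      rcases hy' with h | h | h
      · exact hsegL y h hy
      · exact hmL y h hy
      · rw [h] at hy; exact hqL hy
  · -- head
    rw [List.head?_append, List.head?_reverse, hI.last]
    rfl
  · -- last
    simp [List.getLast?_append]
  · -- only
    intro j hj1 hj2 hj3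
    simp only [List.mem_append, List.mem_singleton, List.mem_reverse] at hj3
    rcases hj3 with h | h | h | h
    · rcases hI.only j (by omega) hj2 h with h | h
      · omega
      · left; exact h
    · obtain ⟨j', h1, h2, h3⟩ := mem_seg.mp h
      have := hP.inj _ _ (by omega) hj2 h3
      omega
    · exact absurd (mem_PX hj2) (hm3 _ h)
    · right; exact hP.inj _ _ hj2 hq'l h
  · -- off
    intro x hx hxX
    simp only [List.mem_append, List.mem_singleton, List.mem_reverse] at hx
    rcases hx with h | h | h | h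
    · obtain ⟨s', hs', h'⟩ := hI.off x h hxX
      exact ⟨s', by omega, h'⟩
    · obtain ⟨j', h1, h2, h3⟩ := mem_seg.mp h
      exact absurd (h3 ▸ mem_PX (by omega)) hxX
    · obtain ⟨u, hu, hau, hr⟩ := hm4 x h
      exact ⟨s, hs, u, hu, hau, hr⟩
    · exact absurd (h ▸ mem_PX hq'l) hxX
  · -- nb
    intro w hw
    simp only [List.mem_append, List.mem_reverse]
    left
    exact hI.nb w hw

theorem inv_start {G : SimpleGraph V} {f : ℕ → V} {ℓ : ℕ} (hP : LPath G f ℓ)
    (h2 : TwoConn G) {k : ℕ} (hk0 : 0 < k) (hkl : k + 1 < ℓ) (hk : G.Adj (f 0) (f k))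
    (hnb : ∀ w, G.Adj (f 0) w → ∃ j, 0 < j ∧ j ≤ k ∧ f j = w) :
    ∃ q L, Inv G f ℓ k q L := by
  classical
  obtain ⟨s, q, hs, hq, hql, he, hmax⟩ := exists_max_ear hP h2 hk0 hkl
  obtain ⟨m, hm1, hm2, hm3, hm4, hm5⟩ := exists_ear_list he
  have hex : ∃ p, s < p ∧ G.Adj (f 0) (f p) := ⟨k, hs, hk⟩
  have hp := Nat.find_spec hex
  have hpmin := fun j => @Nat.find_min _ _ hex j
  have hpk : Nat.find hex ≤ k := Nat.find_min' hex ⟨hs, hk⟩
  set p := Nat.find hex with hpdef
  have hchm := List.isChain_cons.mp hm1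
  refine ⟨q, (seg f p (k+1)).reverse ++ (seg f 0 (s+1) ++ (m ++ [f q])), ?_⟩
  refine ⟨hk0, hq, hql, ?_, ?_, ?_, ?_, ?_, hmax, ?_, ?_⟩
  · rw [List.isChain_append]
    refine ⟨chain_reverse (chain_seg hP (by omega)), ?_, ?_⟩
    · rw [List.isChain_append]
      refine ⟨chain_seg hP (by omega), hchm.2, ?_⟩
      intro x hx y hy
      rw [getLast?_seg (by omega)] at hx
      simp only [Option.mem_def, Option.some.injEq] at hx
      have : s + 1 - 1 = s := by omega
      rw [this] at hx
      subst hx
      exact hchm.1 y hy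
    · intro x hx y hy
      rw [List.getLast?_reverse, head?_seg (by omega)] at hx
      rw [List.head?_append, head?_seg (by omega)] at hy
      simp only [Option.some_or, Option.mem_def, Option.some.injEq] at hx hy
      subst hx hy
      exact hp.2.symm
  · rw [List.nodup_append', List.nodup_append', List.nodup_append']
    refine ⟨List.nodup_reverse.mpr (nodup_seg hP (by omega)),
      ⟨nodup_seg hP (by omega), ⟨hm2, by simp, ?_⟩, ?_⟩, ?_⟩
    · intro y hy hy'
      simp only [List.mem_singleton] at hy'
      subst hy'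
      exact hm3 _ hy (mem_PX hql)
    · intro y hy hy'
      obtain ⟨j, hj1, hj2, rfl⟩ := mem_seg.mp hy
      simp only [List.mem_append, List.mem_singleton] at hy'
      rcases hy' with h | h
      · exact hm3 _ h (mem_PX (by omega))
      · have := hP.inj _ _ (by omega) hql h
        omega
    · intro y hy hy'
      rw [List.mem_reverse] at hy
      obtain ⟨j, hj1, hj2, rfl⟩ := mem_seg.mp hy
      simp only [List.mem_append, List.mem_singleton] at hy'
      rcases hy' with h | h | h
      · obtain ⟨j', hj1', hj2', h⟩ := mem_seg.mp h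
        have := hP.inj _ _ (by omega) (by omega) h
        omega
      · exact hm3 _ h (mem_PX (by omega))
      · have := hP.inj _ _ (by omega) hql h
        omega
  · rw [List.head?_append, List.head?_reverse, getLast?_seg (by omega)]
    simp
  · simp [List.getLast?_append]
  · intro j hj1 hj2 hj3
    simp only [List.mem_append, List.mem_singleton, List.mem_reverse] at hj3
    rcases hj3 with h | h | h | h
    · obtain ⟨j', h1, h2, h3⟩ := mem_seg.mp h
      have := hP.inj _ _ (by omega) hj2 h3
      omega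
    · obtain ⟨j', h1, h2, h3⟩ := mem_seg.mp h
      have := hP.inj _ _ (by omega) hj2 h3
      omega
    · exact absurd (mem_PX hj2) (hm3 _ h)
    · right; exact hP.inj _ _ hj2 hql h
  · intro x hx hxX
    simp only [List.mem_append, List.mem_singleton, List.mem_reverse] at hx
    rcases hx with h | h | h | h
    · obtain ⟨j', h1, h2, h3⟩ := mem_seg.mp h
      exact absurd (h3 ▸ mem_PX (by omega)) hxX
    · obtain ⟨j', h1, h2, h3⟩ := mem_seg.mp h
      exact absurd (h3 ▸ mem_PX (by omega)) hxX
    · obtain ⟨u, hu, hau, hr⟩ := hm4 x h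
      exact ⟨s, hs, u, hu, hau, hr⟩
    · exact absurd (h ▸ mem_PX hql) hxX
  · intro w hw
    simp only [List.mem_append, List.mem_reverse, List.mem_singleton]
    rcases hw with rfl | hw
    · right; left
      exact mem_seg.mpr ⟨0, le_rfl, by omega, rfl⟩
    · obtain ⟨j, hj0, hjk, rfl⟩ := hnb w hw
      rcases Nat.lt_or_ge s j with h | h
      · left
        refine mem_seg.mpr ⟨j, ?_, by omega, rfl⟩
        exact Nat.find_min' hex ⟨h, hw⟩
      · right; left
        exact mem_seg.mpr ⟨j, by omega, by omega, rfl⟩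

theorem inv_far {G : SimpleGraph V} {f : ℕ → V} {ℓ : ℕ} (hP : LPath G f ℓ)
    (h2 : TwoConn G) {j0 : ℕ} (hj0 : j0 + 1 < ℓ) : ∀ n i q L, ℓ - i ≤ n → Inv G f ℓ i q L →
    i ≤ j0 → ∃ i' q' L', Inv G f ℓ i' q' L' ∧ i' ≤ j0 ∧ j0 < q' := by
  intro n
  induction n with
  | zero =>
    intro i q L hn hI hi
    have := hI.iq
    have := hI.ql
    omega
  | succ n ih =>
    intro i q L hn hI hi
    rcases Nat.lt_or_ge j0 q with h | h
    · exact ⟨i, q, L, hI, hi, h⟩
    · obtain ⟨q', L', hI'⟩ := inv_step hP h2 hI (by omega)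
      have := hI.iq
      have := hI.ql
      exact ih q q' L' (by omega) hI' h

theorem inv_close {G : SimpleGraph V} {f : ℕ → V} {ℓ : ℕ} (hP : LPath G f ℓ)
    {i q j0 : ℕ} {L : List V} (hI : Inv G f ℓ i q L) (hi : i ≤ j0) (hq : j0 < q)
    (hadj : G.Adj (f (ℓ - 1)) (f j0))
    (hnb : ∀ w, G.Adj (f (ℓ - 1)) w → ∃ j, j0 ≤ j ∧ j + 1 < ℓ ∧ f j = w) :
    ∃ C, Cyc G C ∧ (∀ w, w = f 0 ∨ G.Adj (f 0) w → w ∈ C) ∧
      (∀ w, w = f (ℓ - 1) ∨ G.Adj (f (ℓ - 1)) w → w ∈ C) := by
  classical
  have hql := hI.ql
  have hiq := hI.iq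
  -- the last neighbour before `q`
  let A := (Finset.range q).filter (fun j => G.Adj (f (ℓ - 1)) (f j))
  have hA : A.Nonempty := ⟨j0, by simp only [A, Finset.mem_filter, Finset.mem_range]; exact ⟨hq, hadj⟩⟩
  obtain ⟨j', hmem, hmax⟩ := A.exists_max_image id hA
  simp only [A, Finset.mem_filter, Finset.mem_range, id] at hmem hmax
  obtain ⟨hj'q, hj'adj⟩ := hmem
  have hj0j' : j0 ≤ j' := hmax j0 ⟨hq, hadj⟩
  have hlast : (L ++ seg f (q+1) ℓ).getLast? = some (f (ℓ - 1)) := by
    rw [List.getLast?_append, hI.last]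
    rcases Nat.lt_or_ge (q+1) ℓ with h | h
    · rw [getLast?_seg h]
      simp
    · have h3 : seg f (q+1) ℓ = [] := by
        unfold seg
        have : ℓ - (q + 1) = 0 := by omega
        simp [this]
      rw [h3]
      have : q = ℓ - 1 := by omega
      simp [this]
  have hLne : L ≠ [] := by
    intro h
    have := hI.head
    rw [h] at this
    simp at this
  refine ⟨(L ++ seg f (q+1) ℓ) ++ (seg f (i+1) (j'+1)).reverse, ⟨?_, ?_, ?_, ?_⟩, ?_, ?_⟩
  · -- length
    have h1 : 2 ≤ L.length := by
      by_contra hlt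
      have h3 : L.length = 1 := by
        have : 0 < L.length := List.length_pos_iff.mpr hLne
        omega
      obtain ⟨x, hx⟩ := List.length_eq_one_iff.mp h3
      have h4 := hI.head
      have h5 := hI.last
      rw [hx] at h4 h5
      simp at h4 h5
      have := hP.inj i q (by omega) (by omega) (h4.symm.trans h5)
      omega
    -- either there is a vertex after `q`, or `j' > i`, or `L` has length at least three
    simp only [List.length_append, List.length_reverse, length_seg]
    by_contra hlt
    have h6 : L.length = 2 := by omega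
    have h7 : j' = i := by omega
    have h8 : q + 1 = ℓ := by omega
    obtain ⟨x, y, hxy⟩ := List.length_eq_two.mp h6
    have h4 := hI.head
    have h5 := hI.last
    rw [hxy] at h4 h5
    simp at h4 h5
    -- `f 0` and `f 1` both lie in `L`
    have h9 := hI.nb (f 0) (Or.inl rfl)
    have h10 := hI.nb (f 1) (Or.inr (hP.adj 0 (by omega)))
    rw [hxy, h4, h5] at h9 h10
    simp only [List.mem_cons, List.not_mem_nil, or_false] at h9 h10
    have hip := hI.ipos
    rcases h9 with h | h
    · have := hP.inj _ _ (by omega) (by omega) h; omega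
    · have := hP.inj _ _ (by omega) (by omega) h; omega
  · -- nodup
    rw [List.nodup_append', List.nodup_append']
    refine ⟨⟨hI.nodup, nodup_seg hP le_rfl, ?_⟩, List.nodup_reverse.mpr (nodup_seg hP (by omega)), ?_⟩
    · intro y hy hy'
      obtain ⟨j, hj1, hj2, rfl⟩ := mem_seg.mp hy'
      rcases hI.only j (by omega) hj2 hy with h | h <;> omega
    · intro y hy hy'
      rw [List.mem_reverse] at hy'
      obtain ⟨j, hj1, hj2, rfl⟩ := mem_seg.mp hy'
      rw [List.mem_append] at hy
      rcases hy with hy | hy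
      · rcases hI.only j (by omega) (by omega) hy with h | h <;> omega
      · obtain ⟨j'', hj1'', hj2'', h⟩ := mem_seg.mp hy
        have := hP.inj _ _ (by omega) (by omega) h
        omega
  · -- chain
    rw [List.isChain_append]
    refine ⟨?_, chain_reverse (chain_seg hP (by omega)), ?_⟩
    · rw [List.isChain_append]
      refine ⟨hI.chain, chain_seg hP le_rfl, ?_⟩
      intro x hx y hy
      rw [hI.last] at hx
      rcases Nat.lt_or_ge (q+1) ℓ with h | h
      · rw [head?_seg h] at hy
        simp only [Option.mem_def, Option.some.injEq] at hx hy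
        subst hx hy
        exact hP.adj q h
      · have h3 : seg f (q+1) ℓ = [] := by
          unfold seg
          have : ℓ - (q + 1) = 0 := by omega
          simp [this]
        rw [h3] at hy
        simp at hy
    · intro x hx y hy
      rw [hlast] at hx
      rw [List.head?_reverse] at hy
      rcases Nat.lt_or_ge i j' with h | h
      · rw [getLast?_seg (by omega)] at hy
        simp only [Option.mem_def, Option.some.injEq, Nat.add_sub_cancel] at hx hy
        subst hx hy
        exact hj'adj
      · have h3 : seg f (i+1) (j'+1) = [] := by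
          unfold seg
          have : j' + 1 - (i + 1) = 0 := by omega
          simp [this]
        rw [h3] at hy
        simp at hy
  · -- closing edge
    intro x hx y hy
    rw [List.getLast?_append, hlast, List.getLast?_reverse] at hx
    rw [List.append_assoc, List.head?_append, hI.head] at hy
    simp only [Option.some_or, Option.mem_def, Option.some.injEq] at hy
    subst hy
    rcases Nat.lt_or_ge i j' with h | h
    · rw [head?_seg (by omega)] at hx
      simp only [Option.some_or, Option.mem_def, Option.some.injEq] at hx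
      subst hx
      exact (hP.adj i (by omega)).symm
    · have h3 : seg f (i+1) (j'+1) = [] := by
        unfold seg
        have : j' + 1 - (i + 1) = 0 := by omega
        simp [this]
      rw [h3] at hx
      simp at hx
      subst hx
      have : i = j' := by omega
      rw [this]
      exact hj'adj
  · intro w hw
    simp only [List.mem_append]
    exact Or.inl (Or.inl (hI.nb w hw))
  · intro w hw
    simp only [List.mem_append, List.mem_reverse]
    have hiL : f i ∈ L := List.mem_of_mem_head? (by rw [hI.head]; rfl)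
    have hqL : f q ∈ L := List.mem_of_mem_getLast? (by rw [hI.last]; rfl)
    have key : ∀ j, j0 ≤ j → j < ℓ → (G.Adj (f (ℓ - 1)) (f j) ∨ j = ℓ - 1) →
        (f j ∈ L ∨ f j ∈ seg f (q+1) ℓ) ∨ f j ∈ seg f (i+1) (j'+1) := by
      intro j hj1 hj2 hj3
      rcases Nat.lt_trichotomy j q with h | h | h
      · rcases hj3 with hj3 | hj3
        · have h1 := hmax j ⟨h, hj3⟩
          rcases Nat.lt_or_ge i j with h2 | h2
          · right
            exact mem_seg.mpr ⟨j, by omega, by omega, rfl⟩
          · left; left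
            have : j = i := by omega
            rw [this]; exact hiL
        · omega
      · left; left; rw [h]; exact hqL
      · left; right
        exact mem_seg.mpr ⟨j, by omega, by omega, rfl⟩
    rcases hw with rfl | hw
    · exact key (ℓ - 1) (by omega) (by omega) (Or.inr rfl)
    · obtain ⟨j, hj1, hj2, rfl⟩ := hnb w hw
      exact key j hj1 (by omega) (Or.inl hw)

theorem Cyc.ne_nil {G : SimpleGraph V} {C : List V} (h : Cyc G C) : C ≠ [] := by
  intro h'
  have := h.1
  rw [h'] at this
  simp at this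

theorem Cyc.rotate {G : SimpleGraph V} {l₁ l₂ : List V} (h : Cyc G (l₁ ++ l₂)) :
    Cyc G (l₂ ++ l₁) := by
  obtain ⟨h1, h2, h3, h4⟩ := h
  rcases l₁ with _ | ⟨a, l₁⟩
  · rw [List.nil_append] at h1 h2 h3 h4
    rw [List.append_nil]
    exact ⟨h1, h2, h3, h4⟩
  rcases l₂ with _ | ⟨b, l₂⟩
  · rw [List.append_nil] at h1 h2 h3 h4
    rw [List.nil_append]
    exact ⟨h1, h2, h3, h4⟩
  rw [List.isChain_append] at h3
  obtain ⟨h5, h6, h7⟩ := h3
  refine ⟨?_, ?_, ?_, ?_⟩
  · rw [List.length_append] at h1 ⊢
    omega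
  · exact (List.nodup_append_comm).mp h2
  · rw [List.isChain_append]
    refine ⟨h6, h5, ?_⟩
    intro x hx y hy
    apply h4 x _ y
    · simpa using hy
    · rw [List.getLast?_append]
      rw [Option.mem_def] at hx
      rw [hx]
      rfl
  · intro x hx y hy
    apply h7 x _ y
    · simpa using hy
    · rw [List.getLast?_append] at hx
      rw [List.getLast?_eq_some_getLast (List.cons_ne_nil a l₁)] at hx ⊢
      simpa using hx

/-- a cycle which is as long as the longest path contains all non-isolated vertices -/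
theorem hamiltonian_of_length {G : SimpleGraph V} (h2 : TwoConn G) {C : List V} (hC : Cyc G C)
    (hmax : ∀ l : List V, l.IsChain G.Adj → l.Nodup → l.length ≤ C.length) :
    ∀ y ∈ G.support, y ∈ C := by
  intro y hy
  by_contra hyC
  have hlen := hC.1
  obtain ⟨a, b, t, hab⟩ : ∃ a b t, C = a :: b :: t := by
    rcases C with _ | ⟨a, _ | ⟨b, t⟩⟩
    · simp at hlen
    · simp at hlen
    · exact ⟨a, b, t, rfl⟩
  have haC : a ∈ C := by rw [hab]; simp
  have hbC : b ∈ C := by rw [hab]; simp
  have habn : a ≠ b := by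
    intro h
    have := hC.2.1
    rw [hab, h] at this
    simp at this
  have habadj : G.Adj a b := by
    have := hC.2.2.1
    rw [hab, List.isChain_cons_cons] at this
    exact this.1
  have hr := h2 b y a hy ⟨b, habadj⟩ (fun h => hyC (h ▸ hbC)) habn
  obtain ⟨w⟩ := hr
  have hwalk : ∀ {u v : V} (w : (G.deleteIncidenceSet b).Walk u v), u ∉ C → v ∈ C →
      ∃ z z', z ∉ C ∧ z' ∈ C ∧ G.Adj z z' := by
    intro u v w
    induction w with
    | nil => intro h1 h2; exact absurd h2 h1
    | @cons u v w' h p ih =>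
      intro h1 h2
      rw [deleteIncidenceSet_adj] at h
      by_cases hv : v ∈ C
      · exact ⟨u, v, h1, hv, h.1⟩
      · exact ih hv h2
  obtain ⟨z, z', hz, hz', hzz'⟩ := hwalk w hyC haC
  obtain ⟨l₁, l₂, hl⟩ := List.append_of_mem hz'
  rw [hl] at hC
  have hrot := hC.rotate
  have h5 := hmax (z :: ((z' :: l₂) ++ l₁)) ?_ ?_
  · rw [hl] at h5
    simp at h5
    omega
  · rw [List.isChain_cons]
    refine ⟨?_, hrot.2.2.1⟩
    intro x hx
    simp at hx
    rw [← hx]
    exact hzz'
  · rw [List.nodup_cons]
    refine ⟨?_, hrot.2.1⟩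
    intro h
    apply hz
    rw [hl]
    simp only [List.mem_append, List.mem_cons] at h ⊢
    tauto

theorem exists_lpath [Fintype V] (G : SimpleGraph V) [Nonempty V] :
    ∃ f ℓ, LPath G f ℓ := by
  classical
  let S : Set ℕ := {n | ∃ l : List V, l.IsChain G.Adj ∧ l.Nodup ∧ l.length = n}
  have hne : S.Nonempty := ⟨0, [], by simp, by simp, rfl⟩
  have hbdd : BddAbove S := by
    refine ⟨Fintype.card V, ?_⟩
    rintro n ⟨l, _, hn, rfl⟩
    exact hn.length_le_card
  obtain ⟨l, hl1, hl2, hl3⟩ := Nat.sSup_mem hne hbdd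
  have v0 : V := Classical.arbitrary V
  refine ⟨fun i => (l[i]?).getD v0, sSup S, ?_, ?_, ?_⟩
  · intro i j hi hj h
    rw [← hl3] at hi hj
    simp only [List.getElem?_eq_getElem hi, List.getElem?_eq_getElem hj, Option.getD_some] at h
    exact (hl2.getElem_inj_iff).mp h
  · intro i hi
    rw [← hl3] at hi
    simp only [List.getElem?_eq_getElem hi, List.getElem?_eq_getElem (show i < l.length by omega),
      Option.getD_some]
    exact List.isChain_iff_getElem.mp hl1 i hi
  · intro l' h1 h2
    exact le_csSup hbdd ⟨l', h1, h2, rfl⟩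

theorem nbr_mem_path {G : SimpleGraph V} {f : ℕ → V} {ℓ : ℕ} (hP : LPath G f ℓ) (hl : 0 < ℓ)
    {w : V} (hw : G.Adj (f 0) w) : ∃ j, 0 < j ∧ j < ℓ ∧ f j = w := by
  by_contra hno
  push Not at hno
  have hw' : w ∉ seg f 0 ℓ := by
    intro h
    obtain ⟨j, _, hj, h⟩ := mem_seg.mp h
    rcases Nat.eq_zero_or_pos j with rfl | hj0
    · rw [h] at hw
      exact G.loopless.irrefl _ hw
    · exact hno j hj0 hj h
  have := hP.max (w :: seg f 0 ℓ) ?_ ?_
  · rw [List.length_cons, length_seg] at this
    omega
  · rw [List.isChain_cons]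
    refine ⟨?_, chain_seg hP le_rfl⟩
    intro y hy
    rw [head?_seg hl] at hy
    simp at hy
    rw [← hy]
    exact hw.symm
  · rw [List.nodup_cons]
    exact ⟨hw', nodup_seg hP le_rfl⟩

theorem nbr_mem_path' {G : SimpleGraph V} {f : ℕ → V} {ℓ : ℕ} (hP : LPath G f ℓ) (hl : 0 < ℓ)
    {w : V} (hw : G.Adj (f (ℓ - 1)) w) : ∃ j, j + 1 < ℓ ∧ f j = w := by
  by_contra hno
  push Not at hno
  have hw' : w ∉ (seg f 0 ℓ).reverse := by
    intro h
    rw [List.mem_reverse] at h
    obtain ⟨j, _, hj, h⟩ := mem_seg.mp h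
    rcases Nat.lt_or_ge (j + 1) ℓ with hj0 | hj0
    · exact hno j hj0 h
    · have : j = ℓ - 1 := by omega
      rw [← this, h] at hw
      exact G.loopless.irrefl _ hw
  have := hP.max (w :: (seg f 0 ℓ).reverse) ?_ ?_
  · rw [List.length_cons, List.length_reverse, length_seg] at this
    omega
  · rw [List.isChain_cons]
    refine ⟨?_, chain_reverse (chain_seg hP le_rfl)⟩
    intro y hy
    rw [List.head?_reverse, getLast?_seg hl] at hy
    simp at hy
    rw [← hy]
    exact hw.symm
  · rw [List.nodup_cons]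
    exact ⟨hw', List.nodup_reverse.mpr (nodup_seg hP le_rfl)⟩

theorem dirac [Fintype V] [DecidableEq V] (G : SimpleGraph V) [DecidableRel G.Adj]
    (h2 : TwoConn G) (h3 : ∃ a b c, a ∈ G.support ∧ b ∈ G.support ∧ c ∈ G.support ∧
      a ≠ b ∧ a ≠ c ∧ b ≠ c) :
    (∃ C, Cyc G C ∧ ∀ x ∈ G.support, x ∈ C) ∨
    (∃ v, 0 < G.degree v ∧ ∃ C, Cyc G C ∧ v ∈ C ∧ (∀ w, G.Adj v w → w ∈ C) ∧
      2 * G.degree v ≤ C.length) := by
  classical
  obtain ⟨a0, b0, c0, ha0, hb0, hc0, hab0, hac0, hbc0⟩ := h3
  have : Nonempty V := ⟨a0⟩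
  obtain ⟨f, ℓ, hP⟩ := exists_lpath G
  -- the path has at least three vertices
  have hl : 3 ≤ ℓ := by
    obtain ⟨d, hd⟩ := (mem_support G).mp ha0
    -- pick a support vertex different from `a0` and `d`
    obtain ⟨e, he, hea, hed⟩ : ∃ e, e ∈ G.support ∧ e ≠ a0 ∧ e ≠ d := by
      by_cases h : b0 = d
      · exact ⟨c0, hc0, hac0.symm, fun h' => hbc0 (h.trans h'.symm)⟩
      · exact ⟨b0, hb0, hab0.symm, h⟩
    have hr := h2 a0 d e ⟨a0, hd.symm⟩ he hd.ne' hea
    obtain ⟨w⟩ := hr
    cases w with
    | nil => exact absurd rfl hed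
    | @cons _ u _ h p =>
      rw [deleteIncidenceSet_adj] at h
      have := hP.max [a0, d, u] (by simp [hd, h.1]) (by
        simp only [List.nodup_cons, List.mem_cons, List.not_mem_nil, or_false, not_or,
          List.nodup_nil, and_true, not_false_eq_true]
        exact ⟨⟨hd.ne, h.2.2.symm⟩, h.1.ne⟩)
      simpa using this
  have hadj01 : G.Adj (f 0) (f 1) := hP.adj 0 (by omega)
  have hadjl : G.Adj (f (ℓ - 1)) (f (ℓ - 2)) := by
    have := hP.adj (ℓ - 2) (by omega)
    rw [show ℓ - 2 + 1 = ℓ - 1 by omega] at this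
    exact this.symm
  by_cases hcross : ∃ D, 0 < D ∧ ∃ a, a + D < ℓ ∧ G.Adj (f (ℓ - 1)) (f a) ∧ G.Adj (f 0) (f (a + D))
  · -- crossing case
    have hD := Nat.find_spec hcross
    have hDmin := fun j => @Nat.find_min _ _ hcross j
    set D := Nat.find hcross with hDdef
    obtain ⟨hD0, a, haD, hadja, hadjb⟩ := hD
    have hchain : (seg f 0 (a + 1) ++ (seg f (a + D) ℓ).reverse).IsChain G.Adj := by
      rw [List.isChain_append]
      refine ⟨chain_seg hP (by omega), chain_reverse (chain_seg hP le_rfl), ?_⟩
      intro x hx y hy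
      rw [getLast?_seg (by omega)] at hx
      rw [List.head?_reverse, getLast?_seg (by omega)] at hy
      simp only [Option.mem_def, Option.some.injEq, Nat.add_sub_cancel] at hx hy
      rw [← hx, ← hy]
      exact hadja.symm
    have hnodup : (seg f 0 (a + 1) ++ (seg f (a + D) ℓ).reverse).Nodup := by
      rw [List.nodup_append']
      refine ⟨nodup_seg hP (by omega), List.nodup_reverse.mpr (nodup_seg hP le_rfl), ?_⟩
      intro y hy hy'
      rw [List.mem_reverse] at hy'
      obtain ⟨j, hj1, hj2, rfl⟩ := mem_seg.mp hy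
      obtain ⟨j', hj1', hj2', h⟩ := mem_seg.mp hy'
      have := hP.inj _ _ (by omega) (by omega) h
      omega
    have hclose : ∀ x ∈ (seg f 0 (a + 1) ++ (seg f (a + D) ℓ).reverse).getLast?,
        ∀ y ∈ (seg f 0 (a + 1) ++ (seg f (a + D) ℓ).reverse).head?, G.Adj x y := by
      intro x hx y hy
      rw [List.getLast?_append, List.getLast?_reverse, head?_seg (by omega)] at hx
      rw [List.head?_append, head?_seg (by omega)] at hy
      simp only [Option.some_or, Option.mem_def, Option.some.injEq] at hx hy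
      rw [← hx, ← hy]
      exact hadjb.symm
    have hlen : (seg f 0 (a + 1) ++ (seg f (a + D) ℓ).reverse).length = a + 1 + (ℓ - (a + D)) := by
      rw [List.length_append, List.length_reverse, length_seg, length_seg]
      omega
    by_cases hD1 : D = 1
    · left
      have hC : Cyc G (seg f 0 (a + 1) ++ (seg f (a + D) ℓ).reverse) :=
        ⟨by rw [hlen]; omega, hnodup, hchain, hclose⟩
      refine ⟨_, hC, hamiltonian_of_length h2 hC ?_⟩
      intro l' h1' h2'
      have := hP.max l' h1' h2'
      rw [hlen]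
      omega
    · right
      -- the ends are not adjacent
      have hnadj : ¬ G.Adj (f (ℓ - 1)) (f 0) := by
        intro h
        have := hDmin 1 (by omega)
        apply this
        refine ⟨by omega, ℓ - 2, by omega, hadjl, ?_⟩
        rw [show ℓ - 2 + 1 = ℓ - 1 by omega]
        exact h.symm
      have ha0' : a ≠ 0 := by
        intro h
        rw [h] at hadja
        exact hnadj hadja
      have hbl : a + D ≠ ℓ - 1 := by
        intro h
        rw [h] at hadjb
        exact hnadj hadjb.symm
      have hC : Cyc G (seg f 0 (a + 1) ++ (seg f (a + D) ℓ).reverse) :=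
        ⟨by rw [hlen]; omega, hnodup, hchain, hclose⟩
      -- no neighbours strictly between
      have hbet0 : ∀ j, a < j → j < a + D → ¬ G.Adj (f 0) (f j) := by
        intro j hj1 hj2 h
        apply hDmin (j - a) (by omega)
        refine ⟨by omega, a, by omega, hadja, ?_⟩
        rw [show a + (j - a) = j by omega]
        exact h
      have hbet1 : ∀ j, a < j → j < a + D → ¬ G.Adj (f (ℓ - 1)) (f j) := by
        intro j hj1 hj2 h
        apply hDmin (a + D - j) (by omega)
        refine ⟨by omega, j, by omega, h, ?_⟩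
        rw [show j + (a + D - j) = a + D by omega]
        exact hadjb
      have hmem0 : ∀ w, w = f 0 ∨ G.Adj (f 0) w →
          w ∈ seg f 0 (a + 1) ++ (seg f (a + D) ℓ).reverse := by
        intro w hw
        rw [List.mem_append, List.mem_reverse]
        rcases hw with rfl | hw
        · left; exact mem_seg.mpr ⟨0, le_rfl, by omega, rfl⟩
        · obtain ⟨j, hj0, hjl, rfl⟩ := nbr_mem_path hP (by omega) hw
          rcases Nat.lt_or_ge a j with h | h
          · rcases Nat.lt_or_ge j (a + D) with h' | h'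
            · exact absurd hw (hbet0 j h h')
            · right; exact mem_seg.mpr ⟨j, h', hjl, rfl⟩
          · left; exact mem_seg.mpr ⟨j, by omega, by omega, rfl⟩
      have hmem1 : ∀ w, w = f (ℓ - 1) ∨ G.Adj (f (ℓ - 1)) w →
          w ∈ seg f 0 (a + 1) ++ (seg f (a + D) ℓ).reverse := by
        intro w hw
        rw [List.mem_append, List.mem_reverse]
        rcases hw with rfl | hw
        · right; exact mem_seg.mpr ⟨ℓ - 1, by omega, by omega, rfl⟩
        · obtain ⟨j, hjl, rfl⟩ := nbr_mem_path' hP (by omega) hw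
          rcases Nat.lt_or_ge a j with h | h
          · rcases Nat.lt_or_ge j (a + D) with h' | h'
            · exact absurd hw (hbet1 j h h')
            · right; exact mem_seg.mpr ⟨j, h', by omega, rfl⟩
          · left; exact mem_seg.mpr ⟨j, by omega, by omega, rfl⟩
      -- degree count
      have hdeg : G.degree (f 0) + G.degree (f (ℓ - 1)) ≤ a + 1 + (ℓ - (a + D)) := by
        let N0 := (Finset.range (ℓ - 1)).filter (fun j => G.Adj (f 0) (f (j + 1)))
        let N1 := (Finset.range (ℓ - 1)).filter (fun j => G.Adj (f (ℓ - 1)) (f j))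
        have e0 : G.degree (f 0) ≤ N0.card := by
          rw [← card_neighborFinset_eq_degree]
          calc (G.neighborFinset (f 0)).card ≤ (N0.image (fun j => f (j + 1))).card := by
                apply Finset.card_le_card
                intro w hw
                rw [mem_neighborFinset] at hw
                obtain ⟨j, hj0, hjl, rfl⟩ := nbr_mem_path hP (by omega) hw
                rw [Finset.mem_image]
                refine ⟨j - 1, ?_, by congr 1; omega⟩
                simp only [N0, Finset.mem_filter, Finset.mem_range]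
                rw [show j - 1 + 1 = j by omega]
                exact ⟨by omega, hw⟩
            _ ≤ N0.card := Finset.card_image_le
        have e1 : G.degree (f (ℓ - 1)) ≤ N1.card := by
          rw [← card_neighborFinset_eq_degree]
          calc (G.neighborFinset (f (ℓ - 1))).card ≤ (N1.image f).card := by
                apply Finset.card_le_card
                intro w hw
                rw [mem_neighborFinset] at hw
                obtain ⟨j, hjl, rfl⟩ := nbr_mem_path' hP (by omega) hw
                rw [Finset.mem_image]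
                refine ⟨j, ?_, rfl⟩
                simp only [N1, Finset.mem_filter, Finset.mem_range]
                exact ⟨by omega, hw⟩
            _ ≤ N1.card := Finset.card_image_le
        have hdisj : Disjoint N0 N1 := by
          rw [Finset.disjoint_left]
          intro j hj hj'
          simp only [N0, N1, Finset.mem_filter, Finset.mem_range] at hj hj'
          exact hDmin 1 (by omega) ⟨by omega, j, by omega, hj'.2, hj.2⟩
        have hsub : N0 ∪ N1 ⊆ Finset.range (a + 1) ∪ Finset.Ico (a + D - 1) (ℓ - 1) := by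
          intro j hj
          simp only [N0, N1, Finset.mem_union, Finset.mem_filter, Finset.mem_range,
            Finset.mem_Ico] at hj ⊢
          by_contra hcon
          rcases hj with ⟨hj1, hj2⟩ | ⟨hj1, hj2⟩
          · exact hbet0 (j + 1) (by omega) (by omega) hj2
          · exact hbet1 j (by omega) (by omega) hj2
        calc G.degree (f 0) + G.degree (f (ℓ - 1)) ≤ N0.card + N1.card := by omega
          _ = (N0 ∪ N1).card := (Finset.card_union_of_disjoint hdisj).symm
          _ ≤ (Finset.range (a + 1) ∪ Finset.Ico (a + D - 1) (ℓ - 1)).card :=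
            Finset.card_le_card hsub
          _ ≤ (Finset.range (a + 1)).card + (Finset.Ico (a + D - 1) (ℓ - 1)).card :=
            Finset.card_union_le _ _
          _ ≤ a + 1 + (ℓ - (a + D)) := by
            rw [Finset.card_range, Nat.card_Ico]
            omega
      have hd0 : 0 < G.degree (f 0) := by
        rw [degree_pos_iff_exists_adj]
        exact ⟨_, hadj01⟩
      have hd1 : 0 < G.degree (f (ℓ - 1)) := by
        rw [degree_pos_iff_exists_adj]
        exact ⟨_, hadjl⟩
      rcases Nat.le_total (G.degree (f 0)) (G.degree (f (ℓ - 1))) with h | h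
      · exact ⟨f 0, hd0, _, hC, hmem0 _ (Or.inl rfl), fun w hw => hmem0 w (Or.inr hw),
          by rw [hlen]; omega⟩
      · exact ⟨f (ℓ - 1), hd1, _, hC, hmem1 _ (Or.inl rfl), fun w hw => hmem1 w (Or.inr hw),
          by rw [hlen]; omega⟩
  · -- noncrossing case
    right
    push Not at hcross
    -- last neighbour of `f 0`
    obtain ⟨k, hk0, hkl, hkadj, hkmax⟩ : ∃ k, 0 < k ∧ k < ℓ ∧ G.Adj (f 0) (f k) ∧
        ∀ w, G.Adj (f 0) w → ∃ j, 0 < j ∧ j ≤ k ∧ f j = w := by
      let A := (Finset.range ℓ).filter (fun j => G.Adj (f 0) (f j))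
      have hA : A.Nonempty := ⟨1, by
        simp only [A, Finset.mem_filter, Finset.mem_range]; exact ⟨by omega, hadj01⟩⟩
      obtain ⟨k, hk, hkm⟩ := A.exists_max_image id hA
      simp only [A, Finset.mem_filter, Finset.mem_range, id] at hk hkm
      have hk1 := hkm 1 ⟨by omega, hadj01⟩
      refine ⟨k, by omega, hk.1, hk.2, ?_⟩
      intro w hw
      obtain ⟨j, hj0, hjl, rfl⟩ := nbr_mem_path hP (by omega) hw
      exact ⟨j, hj0, hkm j ⟨hjl, hw⟩, rfl⟩
    obtain ⟨j0, hj0l, hj0adj, hj0min⟩ : ∃ j0, j0 + 1 < ℓ ∧ G.Adj (f (ℓ - 1)) (f j0) ∧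
        ∀ w, G.Adj (f (ℓ - 1)) w → ∃ j, j0 ≤ j ∧ j + 1 < ℓ ∧ f j = w := by
      let A := (Finset.range (ℓ - 1)).filter (fun j => G.Adj (f (ℓ - 1)) (f j))
      have hA : A.Nonempty := ⟨ℓ - 2, by
        simp only [A, Finset.mem_filter, Finset.mem_range]; exact ⟨by omega, hadjl⟩⟩
      obtain ⟨k, hk, hkm⟩ := A.exists_min_image id hA
      simp only [A, Finset.mem_filter, Finset.mem_range, id] at hk hkm
      refine ⟨k, by omega, hk.2, ?_⟩
      intro w hw
      obtain ⟨j, hjl, rfl⟩ := nbr_mem_path' hP (by omega) hw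
      exact ⟨j, hkm j ⟨by omega, hw⟩, hjl, rfl⟩
    have hkj : k ≤ j0 := by
      by_contra h
      apply hcross (k - j0) (by omega) j0 (by omega) hj0adj
      rw [show j0 + (k - j0) = k by omega]
      exact hkadj
    obtain ⟨q, L, hI⟩ := inv_start hP h2 hk0 (by omega) hkadj hkmax
    obtain ⟨i', q', L', hI', hi', hq'⟩ := inv_far hP h2 hj0l (ℓ - k) k q L le_rfl hI hkj
    obtain ⟨C, hC, hC0, hC1⟩ := inv_close hP hI' hi' hq' hj0adj hj0min
    have hdeg : G.degree (f 0) + G.degree (f (ℓ - 1)) ≤ C.length := by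
      let A := insert (f 0) (G.neighborFinset (f 0))
      let B := insert (f (ℓ - 1)) (G.neighborFinset (f (ℓ - 1)))
      have eA : A.card = G.degree (f 0) + 1 := by
        rw [Finset.card_insert_of_notMem (by simp), card_neighborFinset_eq_degree]
      have eB : B.card = G.degree (f (ℓ - 1)) + 1 := by
        rw [Finset.card_insert_of_notMem (by simp), card_neighborFinset_eq_degree]
      have hAi : ∀ w ∈ A, ∃ j, j ≤ k ∧ f j = w := by
        intro w hw
        simp only [A, Finset.mem_insert, mem_neighborFinset] at hw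
        rcases hw with rfl | hw
        · exact ⟨0, by omega, rfl⟩
        · obtain ⟨j, _, hj, rfl⟩ := hkmax w hw
          exact ⟨j, hj, rfl⟩
      have hBi : ∀ w ∈ B, ∃ j, j0 ≤ j ∧ j < ℓ ∧ f j = w := by
        intro w hw
        simp only [B, Finset.mem_insert, mem_neighborFinset] at hw
        rcases hw with rfl | hw
        · exact ⟨ℓ - 1, by omega, by omega, rfl⟩
        · obtain ⟨j, hj, hj', rfl⟩ := hj0min w hw
          exact ⟨j, hj, by omega, rfl⟩
      have hAB : (A ∩ B).card ≤ 1 := by
        calc (A ∩ B).card ≤ ({f k} : Finset V).card := by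
              apply Finset.card_le_card
              intro w hw
              rw [Finset.mem_inter] at hw
              obtain ⟨j, hj, h1⟩ := hAi w hw.1
              obtain ⟨j', hj', hj'l, h2⟩ := hBi w hw.2
              have := hP.inj j j' (by omega) (by omega) (h1.trans h2.symm)
              rw [Finset.mem_singleton, ← h1]
              congr 1
              omega
          _ = 1 := Finset.card_singleton _
      have hsub : A ∪ B ⊆ C.toFinset := by
        intro w hw
        rw [List.mem_toFinset]
        rw [Finset.mem_union] at hw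
        rcases hw with hw | hw
        · apply hC0
          simpa [A] using hw
        · apply hC1
          simpa [B] using hw
      have h5 := Finset.card_union_add_card_inter A B
      have h6 := Finset.card_le_card hsub
      have h7 := C.toFinset_card_le
      omega
    have hd0 : 0 < G.degree (f 0) := by
      rw [degree_pos_iff_exists_adj]
      exact ⟨_, hadj01⟩
    have hd1 : 0 < G.degree (f (ℓ - 1)) := by
      rw [degree_pos_iff_exists_adj]
      exact ⟨_, hadjl⟩
    rcases Nat.le_total (G.degree (f 0)) (G.degree (f (ℓ - 1))) with h | h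
    · exact ⟨f 0, hd0, _, hC, hC0 _ (Or.inl rfl), fun w hw => hC0 w (Or.inr hw), by omega⟩
    · exact ⟨f (ℓ - 1), hd1, _, hC, hC1 _ (Or.inl rfl), fun w hw => hC1 w (Or.inr hw), by omega⟩

end Pool.Agent.MP_18736b_co
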