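import Pool.Agent.MP_18736b_co.Defs
import Pool.Agent.MP_18736b_co.Dirac

/-! The main induction. -/

namespace Pool.Agent.MP_18736b_co

open SimpleGraph

variable {V : Type*}

/-! ### Cycles as lists and as walks -/

theorem cycle_iff (G : SimpleGraph V) (T : Finset V) (k : ℕ) :
    (∃ (v : V) (c : G.Walk v v), c.IsCycle ∧ c.length = k ∧ ∀ x ∈ T, x ∈ c.support) ↔
    ∃ l, Cyc G l ∧ l.length = k ∧ ∀ x ∈ T, x ∈ l := by
  constructor
  · rintro ⟨v, c, hc, hk, hT⟩
    have h3 := hc.three_le_length
    have hsup : c.support = v :: c.support.tail := by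
      rw [Walk.cons_tail_support]
    have hlen : c.support.tail.length = c.length := by
      rw [List.length_tail, Walk.length_support]; omega
    have hne : c.support.tail ≠ [] := by
      intro h
      rw [h] at hlen
      simp at hlen
      omega
    have hlast : c.support.tail.getLast? = some v := by
      have h1 : c.support.getLast? = some v := by
        rw [List.getLast?_eq_some_getLast c.support_ne_nil, Walk.getLast_support]
      rw [hsup, List.getLast?_cons_of_ne_nil hne] at h1
      exact h1
    have hch := c.isChain_adj_support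
    rw [hsup, List.isChain_cons] at hch
    refine ⟨c.support.tail, ⟨by omega, hc.support_nodup, hch.2, ?_⟩, by omega, ?_⟩
    · intro x hx y hy
      rw [hlast] at hx
      simp only [Option.mem_def, Option.some.injEq] at hx
      subst hx
      exact hch.1 y hy
    · intro x hx
      have := hT x hx
      rw [hsup, List.mem_cons] at this
      rcases this with rfl | h
      · exact List.mem_of_mem_getLast? (by rw [hlast]; rfl)
      · exact h
  · rintro ⟨l, ⟨h1, h2, h3, h4⟩, hk, hT⟩
    have hne : l ≠ [] := by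
      intro h; rw [h] at h1; simp at h1
    have hadj : G.Adj (l.getLast hne) (l.head hne) := by
      apply h4
      · rw [List.getLast?_eq_some_getLast hne]; rfl
      · rw [List.head?_eq_some_head hne]; rfl
    refine ⟨l.getLast hne, Walk.cons hadj (Walk.ofSupport l hne h3), ?_, ?_, ?_⟩
    · rw [Walk.isCycle_iff_isPath_tail_and_le_length]
      refine ⟨?_, ?_⟩
      · rw [Walk.isPath_def, Walk.support_tail_of_not_nil _ Walk.not_nil_cons,
          Walk.support_cons, List.tail_cons, Walk.support_ofSupport]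
        exact h2
      · rw [Walk.length_cons, Walk.length_ofSupport]
        omega
    · rw [Walk.length_cons, Walk.length_ofSupport]
      omega
    · intro x hx
      rw [Walk.support_cons, Walk.support_ofSupport]
      exact List.mem_cons_of_mem _ (hT x hx)

/-- the set of lengths of cycles through `T` -/
def gset (G : SimpleGraph V) (T : Finset V) : Set ℕ :=
  {k | ∃ l, Cyc G l ∧ l.length = k ∧ ∀ x ∈ T, x ∈ l}

theorem gam_eq (G : SimpleGraph V) (T : Finset V) : gam G T = sSup (gset G T) := by
  unfold gam gset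
  congr 1
  ext k
  exact cycle_iff G T k

theorem gset_bdd [Fintype V] (G : SimpleGraph V) (T : Finset V) : BddAbove (gset G T) := by
  refine ⟨Fintype.card V, ?_⟩
  rintro k ⟨l, hl, rfl, _⟩
  exact hl.2.1.length_le_card

theorem le_gam [Fintype V] {G : SimpleGraph V} {T : Finset V} {l : List V} (hl : Cyc G l)
    (hT : ∀ x ∈ T, x ∈ l) : l.length ≤ gam G T := by
  rw [gam_eq]
  exact le_csSup (gset_bdd G T) ⟨l, hl, rfl, hT⟩

theorem chain_of_clique {G : SimpleGraph V} {l : List V} (hn : l.Nodup)
    (h : ∀ a ∈ l, ∀ b ∈ l, a ≠ b → G.Adj a b) : l.IsChain G.Adj := by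
  apply List.Pairwise.isChain
  rw [List.nodup_iff_pairwise_ne] at hn
  exact hn.imp_of_mem (fun ha hb hab => h _ ha _ hb hab)

theorem cyc_of_clique {G : SimpleGraph V} {l : List V} (hn : l.Nodup) (h3 : 3 ≤ l.length)
    (h : ∀ a ∈ l, ∀ b ∈ l, a ≠ b → G.Adj a b) : Cyc G l := by
  refine ⟨h3, hn, chain_of_clique hn h, ?_⟩
  intro x hx y hy
  apply h x (List.mem_of_mem_getLast? hx) y (List.mem_of_mem_head? hy)
  rintro rfl
  rcases l with _ | ⟨a, l⟩
  · simp at h3
  · simp only [List.head?_cons, Option.mem_def, Option.some.injEq] at hy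
    subst hy
    have hne : l ≠ [] := by
      intro h; rw [h] at h3; simp at h3
    rw [List.getLast?_cons_of_ne_nil hne] at hx
    rw [List.nodup_cons] at hn
    exact hn.1 (List.mem_of_mem_getLast? hx)

theorem card_le_gam [Fintype V] {G : SimpleGraph V} {T : Finset V} {t : ℕ} (ht : 3 ≤ t)
    (hT : G.IsNClique t T) : t ≤ gam G T := by
  classical
  have h1 : T.toList.length = t := by rw [Finset.length_toList, hT.card_eq]
  rw [← h1]
  apply le_gam
  · apply cyc_of_clique T.nodup_toList (by omega)
    intro a ha b hb hab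
    rw [Finset.mem_toList] at ha hb
    exact hT.isClique ha hb hab
  · intro x hx
    rwa [Finset.mem_toList]

theorem Cyc.mono {G G' : SimpleGraph V} (h : G' ≤ G) {l : List V} (hl : Cyc G' l) : Cyc G l :=
  ⟨hl.1, hl.2.1, hl.2.2.1.imp (fun _ _ h' => h h'), fun x hx y hy => h (hl.2.2.2 x hx y hy)⟩

theorem gam_mono [Fintype V] {G G' : SimpleGraph V} (h : G' ≤ G) (T : Finset V)
    (hne : (gset G' T).Nonempty) : gam G' T ≤ gam G T := by
  rw [gam_eq, gam_eq]
  apply csSup_le_csSup (gset_bdd G T) hne
  rintro k ⟨l, hl, hk, hT⟩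
  exact ⟨l, hl.mono h, hk, hT⟩

/-! ### Binomial estimates -/

theorem choose_ratio {t a b : ℕ} (ht : 2 ≤ t) (hab : a ≤ b) (hta : t ≤ a) :
    b.choose 2 * a.choose t ≤ a.choose 2 * b.choose t := by
  have h1 := Nat.choose_mul (n := a) (k := t) (s := 2) ht
  have h2 := Nat.choose_mul (n := b) (k := t) (s := 2) ht
  have h3 : (a - 2).choose (t - 2) ≤ (b - 2).choose (t - 2) :=
    Nat.choose_le_choose _ (by omega)
  have hpos : 0 < t.choose 2 := Nat.choose_pos ht
  apply Nat.le_of_mul_le_mul_right _ hpos
  calc b.choose 2 * a.choose t * t.choose 2 = b.choose 2 * (a.choose t * t.choose 2) := by ring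
    _ = b.choose 2 * (a.choose 2 * (a - 2).choose (t - 2)) := by rw [h1]
    _ ≤ b.choose 2 * (a.choose 2 * (b - 2).choose (t - 2)) :=
      Nat.mul_le_mul_left _ (Nat.mul_le_mul_left _ h3)
    _ = a.choose 2 * (b.choose 2 * (b - 2).choose (t - 2)) := by ring
    _ = a.choose 2 * (b.choose t * t.choose 2) := by rw [h2]
    _ = a.choose 2 * b.choose t * t.choose 2 := by ring

theorem ratio_anti {t a b : ℕ} (ht : 2 ≤ t) (hab : a ≤ b) (hta : t ≤ a) :
    (b.choose 2 : ℚ) / (b.choose t : ℚ) ≤ (a.choose 2 : ℚ) / (a.choose t : ℚ) := by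
  have h1 : (0 : ℚ) < b.choose t := by exact_mod_cast Nat.choose_pos (hta.trans hab)
  have h2 : (0 : ℚ) < a.choose t := by exact_mod_cast Nat.choose_pos hta
  rw [div_le_div_iff₀ h1 h2]
  exact_mod_cast choose_ratio ht hab hta

theorem pow_mul_choose_le (n r : ℕ) : 2 ^ r * n.choose r ≤ (2 * n).choose r := by
  induction r with
  | zero => simp
  | succ r ih =>
    have h1 := Nat.choose_succ_right_eq n r
    have h2 := Nat.choose_succ_right_eq (2 * n) r
    apply Nat.le_of_mul_le_mul_right _ (Nat.succ_pos r)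
    have h3 : 2 * (n - r) ≤ 2 * n - r := by omega
    calc 2 ^ (r + 1) * n.choose (r + 1) * (r + 1) = 2 ^ (r + 1) * (n.choose (r + 1) * (r + 1)) := by
          ring
      _ = 2 ^ (r + 1) * (n.choose r * (n - r)) := by rw [h1]
      _ = (2 ^ r * n.choose r) * (2 * (n - r)) := by ring
      _ ≤ (2 * n).choose r * (2 * n - r) := Nat.mul_le_mul ih h3
      _ = (2 * n).choose (r + 1) * (r + 1) := by rw [h2]

theorem add_two_lt_pow {r : ℕ} (hr : 1 ≤ r) : r + 2 < 2 ^ (r + 1) := by
  induction r, hr using Nat.le_induction with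
  | base => norm_num
  | succ r hr ih => rw [pow_succ]; omega

theorem choose_key {t d : ℕ} (ht : 3 ≤ t) (hd : t - 1 ≤ d) :
    d.choose (t - 1) * (2 * d).choose 2 < d * (2 * d).choose t := by
  obtain ⟨r, rfl⟩ : ∃ r, t = r + 2 := ⟨t - 2, by omega⟩
  obtain ⟨n, rfl⟩ : ∃ n, d = n + 1 := ⟨d - 1, by omega⟩
  have hr : 1 ≤ r := by omega
  have hnr : r ≤ n := by omega
  have e1 : r + 2 - 1 = r + 1 := by omega
  rw [e1]
  have h1 := Nat.choose_mul (n := 2 * (n + 1)) (k := r + 2) (s := 2) (by omega)
  have e2 : 2 * (n + 1) - 2 = 2 * n := by omega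
  have e3 : r + 2 - 2 = r := by omega
  rw [e2, e3] at h1
  -- `(r+1) C(n+1, r+1) = (n+1) C(n, r)`
  have h2 := Nat.add_one_mul_choose_eq n r
  -- `C(r+2,2) * 2 = (r+2)(r+1)`
  have h3 : (r + 2).choose 2 * 2 = (r + 2) * (r + 1) := by
    have := Nat.choose_two_right (r + 2)
    rw [this]
    have h4 : r + 2 - 1 = r + 1 := by omega
    rw [h4]
    exact Nat.div_mul_cancel (Nat.even_mul_pred_self (r + 2) |>.two_dvd)
  have h4 := pow_mul_choose_le n r
  have h5 := add_two_lt_pow hr
  have hc : 0 < n.choose r := Nat.choose_pos hnr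
  have h6 : (r + 2) * n.choose r < 2 * (2 * n).choose r := by
    calc (r + 2) * n.choose r < 2 ^ (r + 1) * n.choose r := Nat.mul_lt_mul_of_pos_right h5 hc
      _ = 2 * (2 ^ r * n.choose r) := by ring
      _ ≤ 2 * (2 * n).choose r := Nat.mul_le_mul_left 2 h4
  have hpos : 0 < (r + 2).choose 2 * 2 := by
    have := Nat.choose_pos (show 2 ≤ r + 2 by omega)
    omega
  have hpos2 : 0 < (2 * (n + 1)).choose 2 := Nat.choose_pos (by omega)
  apply Nat.lt_of_mul_lt_mul_right (a := (r + 2).choose 2 * 2)
  calc (n + 1).choose (r + 1) * (2 * (n + 1)).choose 2 * ((r + 2).choose 2 * 2)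
      = (2 * (n + 1)).choose 2 * ((r + 2) * ((n + 1).choose (r + 1) * (r + 1))) := by
        rw [h3]; ring
    _ = (2 * (n + 1)).choose 2 * (n + 1) * ((r + 2) * n.choose r) := by rw [← h2]; ring
    _ < (2 * (n + 1)).choose 2 * (n + 1) * (2 * (2 * n).choose r) :=
        Nat.mul_lt_mul_of_pos_left h6 (Nat.mul_pos hpos2 (Nat.succ_pos n))
    _ = (n + 1) * ((2 * (n + 1)).choose 2 * (2 * n).choose r) * 2 := by ring
    _ = (n + 1) * ((2 * (n + 1)).choose (r + 2) * (r + 2).choose 2) * 2 := by rw [h1]
    _ = (n + 1) * (2 * (n + 1)).choose (r + 2) * ((r + 2).choose 2 * 2) := by ring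

/-! ### The two sides of the inequality -/

open scoped Classical in
/-- the `t`-cliques -/
noncomputable def Kt [Fintype V] (G : SimpleGraph V) (t : ℕ) : Finset (Finset V) :=
  Finset.univ.filter (fun T => G.IsNClique t T)

theorem mem_Kt [Fintype V] {G : SimpleGraph V} {t : ℕ} {T : Finset V} :
    T ∈ Kt G t ↔ G.IsNClique t T := by
  simp [Kt]

/-- the number of edges -/
noncomputable def ec (G : SimpleGraph V) : ℕ := G.edgeSet.ncard

/-- the weighted clique count -/
noncomputable def Phi [Fintype V] (G : SimpleGraph V) (t : ℕ) : ℚ := ∑ T ∈ Kt G t, weight G T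

theorem weight_le [Fintype V] {G : SimpleGraph V} {t : ℕ} (ht : 3 ≤ t) {T : Finset V}
    (hT : G.IsNClique t T) {a : ℕ} (hta : t ≤ a) (ha : a ≤ gam G T) :
    weight G T ≤ (a.choose 2 : ℚ) / (a.choose t : ℚ) := by
  unfold weight
  rw [hT.card_eq]
  exact ratio_anti (by omega) ha hta

theorem weight_nonneg (G : SimpleGraph V) (T : Finset V) : 0 ≤ weight G T := by
  unfold weight
  positivity

theorem weight_mono [Fintype V] {G G' : SimpleGraph V} (h : G' ≤ G) {t : ℕ} (ht : 3 ≤ t)
    {T : Finset V} (hT : G'.IsNClique t T) : weight G T ≤ weight G' T := by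
  have h1 : t ≤ gam G' T := card_le_gam ht hT
  have hne : (gset G' T).Nonempty := by
    by_contra hne
    rw [Set.not_nonempty_iff_eq_empty] at hne
    rw [gam_eq, hne] at h1
    simp at h1
    omega
  have h2 := gam_mono h T hne
  have h3 := weight_le ht (hT.mono h) h1 h2
  have h4 : weight G' T = ((gam G' T).choose 2 : ℚ) / ((gam G' T).choose t : ℚ) := by
    unfold weight
    rw [hT.card_eq]
  rw [h4]
  exact h3

/-! ### Deleting a good vertex -/

theorem good_vertex [Fintype V] [DecidableEq V] {G : SimpleGraph V} [DecidableRel G.Adj]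
    {t : ℕ} (ht : 3 ≤ t) {v : V} (hd : 0 < G.degree v) {C : List V} (hC : Cyc G C) (hvC : v ∈ C)
    (hnC : ∀ w, G.Adj v w → w ∈ C) (hlen : 2 * G.degree v ≤ C.length) :
    ∑ T ∈ (Kt G t).filter (fun T => v ∈ T), weight G T < G.degree v := by
  have hdq : (0 : ℚ) < G.degree v := by exact_mod_cast hd
  rcases Nat.lt_or_ge (G.degree v) (t - 1) with hlt | hge
  · -- no clique contains `v`
    have : (Kt G t).filter (fun T => v ∈ T) = ∅ := by
      rw [Finset.filter_eq_empty_iff]
      intro T hT hv
      rw [mem_Kt] at hT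
      have h1 : T.erase v ⊆ G.neighborFinset v := by
        intro w hw
        rw [Finset.mem_erase] at hw
        rw [mem_neighborFinset]
        exact hT.isClique hv hw.2 hw.1.symm
      have h2 := Finset.card_le_card h1
      rw [Finset.card_erase_of_mem hv, hT.card_eq, card_neighborFinset_eq_degree] at h2
      omega
    rw [this, Finset.sum_empty]
    exact hdq
  · set d := G.degree v with hdd
    have htd : t ≤ 2 * d := by omega
    have hw : ∀ T ∈ (Kt G t).filter (fun T => v ∈ T),
        weight G T ≤ ((2 * d).choose 2 : ℚ) / ((2 * d).choose t : ℚ) := by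
      intro T hT
      rw [Finset.mem_filter, mem_Kt] at hT
      apply weight_le ht hT.1 htd
      refine hlen.trans (le_gam hC ?_)
      intro x hx
      by_cases hxv : x = v
      · rw [hxv]; exact hvC
      · exact hnC x (hT.1.isClique hT.2 hx (Ne.symm hxv))
    have hcard : ((Kt G t).filter (fun T => v ∈ T)).card ≤ d.choose (t - 1) := by
      rw [hdd, ← card_neighborFinset_eq_degree, ← Finset.card_powersetCard]
      apply Finset.card_le_card_of_injOn (fun T => T.erase v)
      · intro T hT
        rw [Finset.mem_coe, Finset.mem_filter, mem_Kt] at hT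
        rw [Finset.mem_coe, Finset.mem_powersetCard]
        refine ⟨?_, ?_⟩
        · intro w hw
          rw [Finset.mem_erase] at hw
          rw [mem_neighborFinset]
          exact hT.1.isClique hT.2 hw.2 hw.1.symm
        · rw [Finset.card_erase_of_mem hT.2, hT.1.card_eq]
      · intro T hT T' hT' h
        rw [Finset.mem_coe, Finset.mem_filter] at hT hT'
        simp only at h
        rw [← Finset.insert_erase hT.2, ← Finset.insert_erase hT'.2, h]
    have hpos : (0 : ℚ) < ((2 * d).choose t : ℚ) := by exact_mod_cast Nat.choose_pos htd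
    calc ∑ T ∈ (Kt G t).filter (fun T => v ∈ T), weight G T
        ≤ ((Kt G t).filter (fun T => v ∈ T)).card • (((2 * d).choose 2 : ℚ) / ((2 * d).choose t : ℚ)) :=
          Finset.sum_le_card_nsmul _ _ _ hw
      _ ≤ (d.choose (t - 1) : ℚ) * (((2 * d).choose 2 : ℚ) / ((2 * d).choose t : ℚ)) := by
          rw [nsmul_eq_mul]
          apply mul_le_mul_of_nonneg_right _ (by positivity)
          exact_mod_cast hcard
      _ < d := by
          rw [← mul_div_assoc, div_lt_iff₀ hpos]
          exact_mod_cast choose_key ht hge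

/-! ### Double counting -/

open scoped Classical in
/-- ordered adjacent pairs -/
noncomputable def DD [Fintype V] (G : SimpleGraph V) : Finset (V × V) :=
  Finset.univ.filter (fun p => G.Adj p.1 p.2)

theorem mem_DD [Fintype V] {G : SimpleGraph V} {p : V × V} : p ∈ DD G ↔ G.Adj p.1 p.2 := by
  simp [DD]

theorem card_DD [Fintype V] (G : SimpleGraph V) : (DD G).card = 2 * ec G := by
  classical
  have h1 := G.sum_degrees_eq_twice_card_edges
  have h2 : ec G = G.edgeFinset.card := by
    unfold ec
    rw [← coe_edgeFinset, Set.ncard_coe_finset]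
  rw [h2, ← h1, DD, Finset.card_filter, ← Finset.univ_product_univ, Finset.sum_product]
  apply Finset.sum_congr rfl
  intro v _
  rw [← card_neighborFinset_eq_degree, neighborFinset_eq_filter, Finset.card_filter]

theorem double_count [Fintype V] [DecidableEq V] (G : SimpleGraph V) (t : ℕ) :
    (Kt G t).card * (t * t - t) =
      ∑ p ∈ DD G, ((Kt G t).filter (fun T => p.1 ∈ T ∧ p.2 ∈ T)).card := by
  have h1 : ∀ T ∈ Kt G t, ((DD G).filter (fun p => p.1 ∈ T ∧ p.2 ∈ T)).card = t * t - t := by
    intro T hT
    rw [mem_Kt] at hT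
    have : (DD G).filter (fun p => p.1 ∈ T ∧ p.2 ∈ T) = T.offDiag := by
      ext p
      rw [Finset.mem_filter, mem_DD, Finset.mem_offDiag]
      constructor
      · rintro ⟨h, h1, h2⟩
        exact ⟨h1, h2, h.ne⟩
      · rintro ⟨h1, h2, h3⟩
        exact ⟨hT.isClique h1 h2 h3, h1, h2⟩
    rw [this, Finset.offDiag_card, hT.card_eq]
  calc (Kt G t).card * (t * t - t) = ∑ T ∈ Kt G t, (t * t - t) := by
        rw [Finset.sum_const, smul_eq_mul]
    _ = ∑ T ∈ Kt G t, ((DD G).filter (fun p => p.1 ∈ T ∧ p.2 ∈ T)).card :=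
        Finset.sum_congr rfl (fun T hT => (h1 T hT).symm)
    _ = ∑ T ∈ Kt G t, ∑ p ∈ DD G, (if p.1 ∈ T ∧ p.2 ∈ T then 1 else 0) := by
        apply Finset.sum_congr rfl
        intro T _
        rw [Finset.card_filter]
    _ = ∑ p ∈ DD G, ∑ T ∈ Kt G t, (if p.1 ∈ T ∧ p.2 ∈ T then 1 else 0) := Finset.sum_comm
    _ = _ := by
        apply Finset.sum_congr rfl
        intro p _
        rw [Finset.card_filter]

theorem clique_sub_support [Fintype V] {G : SimpleGraph V} {t : ℕ} (ht : 2 ≤ t) {T : Finset V}
    (hT : G.IsNClique t T) : ∀ x ∈ T, x ∈ G.support := by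
  intro x hx
  have : 1 < T.card := by rw [hT.card_eq]; omega
  obtain ⟨y, hy, hxy⟩ := Finset.exists_mem_ne this x
  exact ⟨y, hT.isClique hx hy hxy.symm⟩

/-- number of cliques through an edge -/
theorem card_through [Fintype V] [DecidableEq V] {G : SimpleGraph V} {t : ℕ} (ht : 2 ≤ t)
    {S : Finset V} (hS : ∀ x ∈ G.support, x ∈ S) {p : V × V} (hp : p ∈ DD G) :
    ((Kt G t).filter (fun T => p.1 ∈ T ∧ p.2 ∈ T)).card ≤ (S.card - 2).choose (t - 2) ∧
    (((Kt G t).filter (fun T => p.1 ∈ T ∧ p.2 ∈ T)).card = (S.card - 2).choose (t - 2) →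
      t ≤ S.card → 3 ≤ t → ∀ x ∈ S, x ≠ p.1 → x ≠ p.2 → G.Adj x p.1 ∧ G.Adj x p.2) := by
  rw [mem_DD] at hp
  have hp1 : p.1 ∈ S := hS _ ⟨_, hp⟩
  have hp2 : p.2 ∈ S := hS _ ⟨_, hp.symm⟩
  have hcard : ((S.erase p.1).erase p.2).card = S.card - 2 := by
    rw [Finset.card_erase_of_mem, Finset.card_erase_of_mem hp1]
    · omega
    · exact Finset.mem_erase.mpr ⟨hp.ne', hp2⟩
  have hmaps : Set.MapsTo (fun T : Finset V => (T.erase p.1).erase p.2)
      ((Kt G t).filter (fun T => p.1 ∈ T ∧ p.2 ∈ T))
      (Finset.powersetCard (t - 2) ((S.erase p.1).erase p.2)) := by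
    intro T hT
    rw [Finset.mem_coe, Finset.mem_filter, mem_Kt] at hT
    obtain ⟨hT, h1, h2⟩ := hT
    rw [Finset.mem_coe, Finset.mem_powersetCard]
    refine ⟨?_, ?_⟩
    · apply Finset.erase_subset_erase
      apply Finset.erase_subset_erase
      intro x hx
      exact hS x (clique_sub_support ht hT x hx)
    · rw [Finset.card_erase_of_mem, Finset.card_erase_of_mem h1, hT.card_eq]
      · omega
      · exact Finset.mem_erase.mpr ⟨hp.ne', h2⟩
  have hinj : Set.InjOn (fun T : Finset V => (T.erase p.1).erase p.2)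
      ((Kt G t).filter (fun T => p.1 ∈ T ∧ p.2 ∈ T)) := by
    intro T hT T' hT' h
    rw [Finset.mem_coe, Finset.mem_filter] at hT hT'
    simp only at h
    rw [← Finset.insert_erase hT.2.1, ← Finset.insert_erase hT'.2.1]
    rw [← Finset.insert_erase (Finset.mem_erase.mpr ⟨hp.ne', hT.2.2⟩),
      ← Finset.insert_erase (Finset.mem_erase.mpr ⟨hp.ne', hT'.2.2⟩), h]
  refine ⟨?_, ?_⟩
  · rw [← hcard, ← Finset.card_powersetCard]
    exact Finset.card_le_card_of_injOn _ hmaps hinj
  · intro heq hts ht3 x hx hx1 hx2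
    have hsurj : Set.SurjOn (fun T : Finset V => (T.erase p.1).erase p.2)
        ((Kt G t).filter (fun T => p.1 ∈ T ∧ p.2 ∈ T))
        (Finset.powersetCard (t - 2) ((S.erase p.1).erase p.2)) := by
      apply Finset.surjOn_of_injOn_of_card_le _ hmaps hinj
      rw [heq, Finset.card_powersetCard, hcard]
    -- a `(t-2)`-subset containing `x`
    have hxmem : x ∈ (S.erase p.1).erase p.2 := by
      rw [Finset.mem_erase, Finset.mem_erase]
      exact ⟨hx2, hx1, hx⟩
    obtain ⟨R, hR1, hR2, hR3⟩ := Finset.exists_subsuperset_card_eq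
      (s := {x}) (t := (S.erase p.1).erase p.2) (n := t - 2) (by simpa using hxmem)
      (by rw [Finset.card_singleton]; omega) (by rw [hcard]; omega)
    obtain ⟨T, hT, hTR⟩ := hsurj (Finset.mem_coe.mpr (Finset.mem_powersetCard.mpr ⟨hR2, hR3⟩))
    rw [Finset.mem_coe, Finset.mem_filter, mem_Kt] at hT
    have hxT : x ∈ T := by
      have : x ∈ R := hR1 (Finset.mem_singleton_self x)
      rw [← hTR] at this
      exact (Finset.mem_erase.mp (Finset.mem_erase.mp this).2).2
    exact ⟨hT.1.isClique hxT hT.2.1 hx1, hT.1.isClique hxT hT.2.2 hx2⟩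

theorem Kt_empty_of_small [Fintype V] {G : SimpleGraph V} {t : ℕ} (ht : 3 ≤ t)
    {S : Finset V} (hS : ∀ x ∈ G.support, x ∈ S) (hlt : S.card < t) : Kt G t = ∅ := by
  rw [Finset.eq_empty_iff_forall_notMem]
  intro T hT
  rw [mem_Kt] at hT
  have h1 : T ⊆ S := fun x hx => hS x (clique_sub_support (by omega) hT x hx)
  have h2 := Finset.card_le_card h1
  rw [hT.card_eq] at h2
  omega

/-- the Hamiltonian case -/
theorem ham_case [Fintype V] [DecidableEq V] {G : SimpleGraph V} {t : ℕ} (ht : 3 ≤ t)
    {C : List V} (hC : Cyc G C) (hCs : ∀ x ∈ G.support, x ∈ C) (hpos : 0 < ec G) :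
    Phi G t ≤ ec G ∧ (Phi G t = ec G → t ≤ C.toFinset.card ∧
      ∀ p ∈ DD G, ∀ x ∈ C.toFinset, x ≠ p.1 → x ≠ p.2 → G.Adj x p.1 ∧ G.Adj x p.2) := by
  have hS : ∀ x ∈ G.support, x ∈ C.toFinset := fun x hx => List.mem_toFinset.mpr (hCs x hx)
  set S := C.toFinset with hSdef
  have hcard : S.card = C.length := List.toFinset_card_of_nodup hC.2.1
  set c := S.card with hc
  have hposq : (0 : ℚ) < ec G := by exact_mod_cast hpos
  rcases Nat.lt_or_ge c t with hlt | hge
  · have := Kt_empty_of_small ht hS hlt
    unfold Phi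
    rw [this, Finset.sum_empty]
    exact ⟨hposq.le, fun h => absurd h hposq.ne⟩
  · have hw : ∀ T ∈ Kt G t, weight G T ≤ (c.choose 2 : ℚ) / (c.choose t : ℚ) := by
      intro T hT
      rw [mem_Kt] at hT
      apply weight_le ht hT hge
      rw [hcard]
      apply le_gam hC
      intro x hx
      exact hCs x (clique_sub_support (by omega) hT x hx)
    have h1 : Phi G t ≤ ((Kt G t).card : ℚ) * ((c.choose 2 : ℚ) / (c.choose t : ℚ)) := by
      unfold Phi
      rw [← nsmul_eq_mul]
      exact Finset.sum_le_card_nsmul _ _ _ hw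
    have h2 := double_count G t
    have h3 : ∀ p ∈ DD G, ((Kt G t).filter (fun T => p.1 ∈ T ∧ p.2 ∈ T)).card ≤
        (c - 2).choose (t - 2) := fun p hp => (card_through (by omega) hS hp).1
    have h4 : (Kt G t).card * (t * t - t) ≤ 2 * ec G * (c - 2).choose (t - 2) := by
      rw [h2, ← card_DD, ← smul_eq_mul]
      exact Finset.sum_le_card_nsmul _ _ _ h3
    have h5 := Nat.choose_mul (n := c) (k := t) (s := 2) (by omega)
    have h6 : t.choose 2 * 2 = t * t - t := by
      rw [Nat.choose_two_right, Nat.div_mul_cancel (Nat.even_mul_pred_self t).two_dvd,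
        Nat.mul_sub_one]
    have hcpos : 0 < c.choose t := Nat.choose_pos hge
    have hc2pos : 0 < c.choose 2 := Nat.choose_pos (by omega)
    have htpos : 0 < t.choose 2 := Nat.choose_pos (by omega)
    have h7 : ((Kt G t).card : ℚ) * ((c.choose 2 : ℚ) / (c.choose t : ℚ)) ≤ ec G := by
      rw [← mul_div_assoc, div_le_iff₀ (by exact_mod_cast hcpos)]
      have : (Kt G t).card * c.choose 2 ≤ ec G * c.choose t := by
        apply Nat.le_of_mul_le_mul_right _ (show 0 < t.choose 2 * 2 by omega)
        calc (Kt G t).card * c.choose 2 * (t.choose 2 * 2)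
            = c.choose 2 * ((Kt G t).card * (t * t - t)) := by rw [h6]; ring
          _ ≤ c.choose 2 * (2 * ec G * (c - 2).choose (t - 2)) := Nat.mul_le_mul_left _ h4
          _ = 2 * ec G * (c.choose 2 * (c - 2).choose (t - 2)) := by ring
          _ = 2 * ec G * (c.choose t * t.choose 2) := by rw [h5]
          _ = ec G * c.choose t * (t.choose 2 * 2) := by ring
      exact_mod_cast this
    refine ⟨h1.trans h7, ?_⟩
    intro heq
    refine ⟨hge, ?_⟩
    have h8 : ((Kt G t).card : ℚ) * ((c.choose 2 : ℚ) / (c.choose t : ℚ)) = ec G :=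
      le_antisymm h7 (by rw [← heq]; exact h1)
    have h9 : (Kt G t).card * c.choose 2 = ec G * c.choose t := by
      rw [← mul_div_assoc, div_eq_iff (by exact_mod_cast hcpos.ne')] at h8
      exact_mod_cast h8
    have h10 : (Kt G t).card * (t * t - t) = 2 * ec G * (c - 2).choose (t - 2) := by
      apply Nat.eq_of_mul_eq_mul_left hc2pos
      calc c.choose 2 * ((Kt G t).card * (t * t - t))
          = ((Kt G t).card * c.choose 2) * (t.choose 2 * 2) := by rw [h6]; ring
        _ = (ec G * c.choose t) * (t.choose 2 * 2) := by rw [h9]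
        _ = 2 * ec G * (c.choose t * t.choose 2) := by ring
        _ = 2 * ec G * (c.choose 2 * (c - 2).choose (t - 2)) := by rw [h5]
        _ = c.choose 2 * (2 * ec G * (c - 2).choose (t - 2)) := by ring
    rw [h2, ← card_DD, ← smul_eq_mul, ← Finset.sum_const] at h10
    have h11 := (Finset.sum_eq_sum_iff_of_le h3).mp h10
    intro p hp
    exact (card_through (by omega) hS hp).2 (h11 p hp) hge ht

/-- the complete case -/
theorem complete_case [Fintype V] [DecidableEq V] {G : SimpleGraph V} {t : ℕ} (ht : 3 ≤ t)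
    {S : Finset V} (hS : ∀ x, x ∈ G.support ↔ x ∈ S) (hSt : t ≤ S.card)
    (hcomp : ∀ x ∈ S, ∀ y ∈ S, x ≠ y → G.Adj x y) : Phi G t = ec G := by
  have hcyc : Cyc G S.toList := by
    apply cyc_of_clique S.nodup_toList
    · rw [Finset.length_toList]; omega
    · intro a ha b hb hab
      rw [Finset.mem_toList] at ha hb
      exact hcomp a ha b hb hab
  have hKt : Kt G t = Finset.powersetCard t S := by
    ext T
    rw [mem_Kt, Finset.mem_powersetCard]
    constructor
    · intro hT
      exact ⟨fun x hx => (hS x).mp (clique_sub_support (by omega) hT x hx), hT.card_eq⟩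
    · rintro ⟨h1, h2⟩
      refine ⟨?_, h2⟩
      intro x hx y hy hxy
      exact hcomp x (h1 hx) y (h1 hy) hxy
  have hgam : ∀ T ∈ Kt G t, gam G T = S.card := by
    intro T hT
    rw [hKt, Finset.mem_powersetCard] at hT
    apply le_antisymm
    · rw [gam_eq]
      apply csSup_le
      · refine ⟨S.toList.length, S.toList, hcyc, rfl, ?_⟩
        intro x hx
        rw [Finset.mem_toList]
        exact hT.1 hx
      · rintro k ⟨l, hl, rfl, _⟩
        rw [← List.toFinset_card_of_nodup hl.2.1]
        apply Finset.card_le_card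
        intro x hx
        rw [List.mem_toFinset] at hx
        rw [← hS]
        -- every vertex of a cycle is in the support
        obtain ⟨l₁, l₂, h⟩ := List.append_of_mem hx
        rw [h] at hl
        have hrot := hl.rotate
        have hlen := hrot.1
        rw [List.cons_append] at hrot hlen
        rcases hl2 : l₂ ++ l₁ with _ | ⟨y, l₃⟩
        · rw [hl2] at hlen; simp at hlen
        · rw [hl2] at hrot
          have := hrot.2.2.1
          rw [List.isChain_cons_cons] at this
          exact ⟨y, this.1⟩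
    · rw [← Finset.length_toList S]
      apply le_gam hcyc
      intro x hx
      rw [Finset.mem_toList]
      exact hT.1 hx
  have hw : ∀ T ∈ Kt G t, weight G T = (S.card.choose 2 : ℚ) / (S.card.choose t : ℚ) := by
    intro T hT
    unfold weight
    rw [hgam T hT, (mem_Kt.mp hT).card_eq]
  unfold Phi
  rw [Finset.sum_congr rfl hw, Finset.sum_const, hKt, Finset.card_powersetCard, nsmul_eq_mul]
  have hpos : (0 : ℚ) < (S.card.choose t : ℚ) := by exact_mod_cast Nat.choose_pos hSt
  rw [mul_div_cancel₀ _ hpos.ne']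
  have hDD : DD G = S.offDiag := by
    ext p
    rw [mem_DD, Finset.mem_offDiag]
    constructor
    · intro h
      exact ⟨(hS _).mp ⟨_, h⟩, (hS _).mp ⟨_, h.symm⟩, h.ne⟩
    · rintro ⟨h1, h2, h3⟩
      exact hcomp _ h1 _ h2 h3
  have h1 := card_DD G
  rw [hDD, Finset.offDiag_card] at h1
  have h2 : S.card.choose 2 * 2 = S.card * S.card - S.card := by
    rw [Nat.choose_two_right, Nat.div_mul_cancel (Nat.even_mul_pred_self _).two_dvd,
      Nat.mul_sub_one]
  have h3 : S.card.choose 2 = ec G := by omega
  rw [h3]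

/-! ### Separations -/

/-- every cycle spans a clique and every edge lies in a `t`-clique -/
def Q [Fintype V] (G : SimpleGraph V) (t : ℕ) : Prop :=
  (∀ l, Cyc G l → ∀ a ∈ l, ∀ b ∈ l, a ≠ b → G.Adj a b) ∧
  (∀ a b, G.Adj a b → ∃ T ∈ Kt G t, a ∈ T ∧ b ∈ T)

/-- edges meeting `U` -/
def G1 (G : SimpleGraph V) (U : Set V) : SimpleGraph V where
  Adj a b := G.Adj a b ∧ (a ∈ U ∨ b ∈ U)
  symm := ⟨fun _ _ h => ⟨h.1.symm, h.2.symm⟩⟩
  loopless := ⟨fun _ h => G.loopless.irrefl _ h.1⟩

/-- edges not meeting `U` -/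
def G2 (G : SimpleGraph V) (U : Set V) : SimpleGraph V where
  Adj a b := G.Adj a b ∧ a ∉ U ∧ b ∉ U
  symm := ⟨fun _ _ h => ⟨h.1.symm, h.2.2, h.2.1⟩⟩
  loopless := ⟨fun _ h => G.loopless.irrefl _ h.1⟩

theorem G1_le (G : SimpleGraph V) (U : Set V) : G1 G U ≤ G := fun _ _ h => h.1
theorem G2_le (G : SimpleGraph V) (U : Set V) : G2 G U ≤ G := fun _ _ h => h.1

/-- `U` and the rest of the graph are joined only through `x` -/
def Sep (G : SimpleGraph V) (x : V) (U : Set V) : Prop :=
  x ∉ U ∧ ∀ u ∈ U, ∀ w, w ∉ U → w ≠ x → ¬ G.Adj u w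

theorem ec_add [Fintype V] (G : SimpleGraph V) (U : Set V) :
    ec G = ec (G1 G U) + ec (G2 G U) := by
  unfold ec
  rw [← Set.ncard_union_eq _ (Set.toFinite _) (Set.toFinite _)]
  · congr 1
    ext e
    induction e using Sym2.ind with
    | _ a b =>
      rw [Set.mem_union, mem_edgeSet, mem_edgeSet, mem_edgeSet]
      constructor
      · intro h
        by_cases h1 : a ∈ U ∨ b ∈ U
        · exact Or.inl ⟨h, h1⟩
        · push Not at h1
          exact Or.inr ⟨h, h1⟩
      · rintro (h | h)
        · exact h.1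
        · exact h.1
  · rw [Set.disjoint_left]
    intro e he he'
    induction e using Sym2.ind with
    | _ a b =>
      rw [mem_edgeSet] at he he'
      rcases he.2 with h | h
      · exact he'.2.1 h
      · exact he'.2.2 h

theorem chain_dich {G : SimpleGraph V} {x : V} {U : Set V} (hs : Sep G x U) {l : List V}
    (hl : l.IsChain G.Adj) (hx : x ∉ l) : (∀ y ∈ l, y ∈ U) ∨ (∀ y ∈ l, y ∉ U) := by
  induction l with
  | nil => left; simp
  | cons a l ih =>
    rw [List.isChain_cons] at hl
    rw [List.mem_cons, not_or] at hx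
    have ih' := ih hl.2 hx.2
    rcases l with _ | ⟨b, l⟩
    · by_cases ha : a ∈ U
      · left; simpa using ha
      · right; simpa using ha
    · have hab : G.Adj a b := hl.1 b (by simp)
      have hbx : b ≠ x := by
        rintro rfl
        exact hx.2 (by simp)
      rcases ih' with h | h
      · left
        intro y hy
        rw [List.mem_cons] at hy
        rcases hy with rfl | hy
        · by_contra hyU
          exact hs.2 b (h b (by simp)) y hyU (Ne.symm hx.1) hab.symm
        · exact h y hy
      · right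
        intro y hy
        rw [List.mem_cons] at hy
        rcases hy with rfl | hy
        · intro hyU
          exact hs.2 y hyU b (h b (by simp)) hbx hab
        · exact h y hy

theorem cyc_dich {G : SimpleGraph V} {x : V} {U : Set V} (hs : Sep G x U) {l : List V}
    (hl : Cyc G l) : (∀ y ∈ l, y = x ∨ y ∈ U) ∨ (∀ y ∈ l, y ∉ U) := by
  by_cases hx : x ∈ l
  · obtain ⟨l₁, l₂, rfl⟩ := List.append_of_mem hx
    have hrot := hl.rotate
    rw [List.cons_append] at hrot
    have hch := (List.isChain_cons.mp hrot.2.2.1).2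
    have hnd := List.nodup_cons.mp hrot.2.1
    rcases chain_dich hs hch hnd.1 with h | h
    · left
      intro y hy
      by_cases hyx : y = x
      · left; exact hyx
      · right
        apply h
        simp only [List.mem_append, List.mem_cons] at hy ⊢
        tauto
    · right
      intro y hy
      by_cases hyx : y = x
      · rw [hyx]; exact hs.1
      · apply h
        simp only [List.mem_append, List.mem_cons] at hy ⊢
        tauto
  · rcases chain_dich hs hl.2.2.1 hx with h | h
    · left; intro y hy; right; exact h y hy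
    · right; exact h

theorem cyc_G1 {G : SimpleGraph V} {x : V} {U : Set V} {l : List V} (hl : Cyc G l)
    (h : ∀ y ∈ l, y = x ∨ y ∈ U) : Cyc (G1 G U) l := by
  have key : ∀ a ∈ l, ∀ b ∈ l, G.Adj a b → (G1 G U).Adj a b := by
    intro a ha b hb hab
    refine ⟨hab, ?_⟩
    rcases h a ha with rfl | h1
    · rcases h b hb with rfl | h2
      · exact absurd hab (G.loopless.irrefl _)
      · right; exact h2
    · left; exact h1
  refine ⟨hl.1, hl.2.1, ?_, ?_⟩
  · exact hl.2.2.1.imp_of_mem_imp (fun a b ha hb hab => key a ha b hb hab)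
  · intro a ha b hb
    exact key a (List.mem_of_mem_getLast? ha) b (List.mem_of_mem_head? hb) (hl.2.2.2 a ha b hb)

theorem cyc_G2 {G : SimpleGraph V} {U : Set V} {l : List V} (hl : Cyc G l)
    (h : ∀ y ∈ l, y ∉ U) : Cyc (G2 G U) l := by
  have key : ∀ a ∈ l, ∀ b ∈ l, G.Adj a b → (G2 G U).Adj a b :=
    fun a ha b hb hab => ⟨hab, h a ha, h b hb⟩
  refine ⟨hl.1, hl.2.1, ?_, ?_⟩
  · exact hl.2.2.1.imp_of_mem_imp (fun a b ha hb hab => key a ha b hb hab)
  · intro a ha b hb
    exact key a (List.mem_of_mem_getLast? ha) b (List.mem_of_mem_head? hb) (hl.2.2.2 a ha b hb)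

theorem cyc_G1_sub {G : SimpleGraph V} {x : V} {U : Set V} (hs : Sep G x U) {l : List V}
    (hl : Cyc (G1 G U) l) : ∀ y ∈ l, y = x ∨ y ∈ U := by
  intro y hy
  obtain ⟨l₁, l₂, rfl⟩ := List.append_of_mem hy
  have hrot := hl.rotate
  rw [List.cons_append] at hrot
  have hlen := hrot.1
  rcases h : l₂ ++ l₁ with _ | ⟨z, l₃⟩
  · rw [h] at hlen; simp at hlen
  · rw [h] at hrot
    have := hrot.2.2.1
    rw [List.isChain_cons_cons] at this
    obtain ⟨⟨h1, h2⟩, _⟩ := this
    by_contra hcon
    push Not at hcon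
    rcases h2 with h2 | h2
    · exact hcon.2 h2
    · exact hs.2 z h2 y hcon.2 hcon.1 h1.symm

theorem cyc_G2_sub {G : SimpleGraph V} {U : Set V} {l : List V}
    (hl : Cyc (G2 G U) l) : ∀ y ∈ l, y ∉ U := by
  intro y hy
  obtain ⟨l₁, l₂, rfl⟩ := List.append_of_mem hy
  have hrot := hl.rotate
  rw [List.cons_append] at hrot
  have hlen := hrot.1
  rcases h : l₂ ++ l₁ with _ | ⟨z, l₃⟩
  · rw [h] at hlen; simp at hlen
  · rw [h] at hrot
    have := hrot.2.2.1
    rw [List.isChain_cons_cons] at this
    exact this.1.2.1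

theorem clique_dich {G : SimpleGraph V} {x : V} {U : Set V} (hs : Sep G x U) {t : ℕ}
    {T : Finset V} (hT : G.IsNClique t T) :
    (∀ y ∈ T, y = x ∨ y ∈ U) ∨ (∀ y ∈ T, y ∉ U) := by
  by_cases h : ∃ y ∈ T, y ∈ U
  · left
    obtain ⟨y, hy, hyU⟩ := h
    intro z hz
    by_contra hcon
    push Not at hcon
    have hyz : y ≠ z := by rintro rfl; exact hcon.2 hyU
    exact hs.2 y hyU z hcon.2 hcon.1 (hT.isClique hy hz hyz)
  · right
    push Not at h
    exact h

theorem nclique_G1 {G : SimpleGraph V} {x : V} {U : Set V} (hs : Sep G x U) {t : ℕ}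
    {T : Finset V} (ht : 2 ≤ t) : (G1 G U).IsNClique t T ↔
      (G.IsNClique t T ∧ ∀ y ∈ T, y = x ∨ y ∈ U) := by
  constructor
  · intro h
    refine ⟨h.mono (G1_le G U), ?_⟩
    rcases clique_dich hs (h.mono (G1_le G U)) with h1 | h1
    · exact h1
    · exfalso
      have : 1 < T.card := by rw [h.card_eq]; omega
      obtain ⟨a, ha, b, hb, hab⟩ := Finset.one_lt_card.mp this
      rcases (h.isClique ha hb hab).2 with h2 | h2
      · exact h1 a ha h2
      · exact h1 b hb h2
  · rintro ⟨h1, h2⟩
    refine ⟨?_, h1.card_eq⟩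
    intro a ha b hb hab
    refine ⟨h1.isClique ha hb hab, ?_⟩
    rcases h2 a ha with rfl | h3
    · rcases h2 b hb with rfl | h4
      · exact absurd rfl hab
      · right; exact h4
    · left; exact h3

theorem nclique_G2 {G : SimpleGraph V} {U : Set V} {t : ℕ}
    {T : Finset V} (ht : 2 ≤ t) : (G2 G U).IsNClique t T ↔
      (G.IsNClique t T ∧ ∀ y ∈ T, y ∉ U) := by
  constructor
  · intro h
    refine ⟨h.mono (G2_le G U), ?_⟩
    intro y hy
    have : 1 < T.card := by rw [h.card_eq]; omega
    obtain ⟨z, hz, hyz⟩ := Finset.exists_mem_ne this y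
    exact (h.isClique hy hz hyz.symm).2.1
  · rintro ⟨h1, h2⟩
    refine ⟨?_, h1.card_eq⟩
    intro a ha b hb hab
    exact ⟨h1.isClique ha hb hab, h2 a ha, h2 b hb⟩

theorem gam_G1 {G : SimpleGraph V} {x : V} {U : Set V} (hs : Sep G x U) {t : ℕ}
    {T : Finset V} (ht : 2 ≤ t) (hT : (G1 G U).IsNClique t T) : gam G T = gam (G1 G U) T := by
  rw [gam_eq, gam_eq]
  congr 1
  ext k
  constructor
  · rintro ⟨l, hl, hk, hlT⟩
    refine ⟨l, ?_, hk, hlT⟩
    rcases cyc_dich hs hl with h | h
    · exact cyc_G1 hl h
    · exfalso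
      have : 1 < T.card := by rw [hT.card_eq]; omega
      obtain ⟨a, ha, b, hb, hab⟩ := Finset.one_lt_card.mp this
      rcases (hT.isClique ha hb hab).2 with h2 | h2
      · exact h a (hlT a ha) h2
      · exact h b (hlT b hb) h2
  · rintro ⟨l, hl, hk, hlT⟩
    exact ⟨l, hl.mono (G1_le G U), hk, hlT⟩

theorem gam_G2 {G : SimpleGraph V} {x : V} {U : Set V} (hs : Sep G x U) {t : ℕ}
    {T : Finset V} (ht : 2 ≤ t) (hT : (G2 G U).IsNClique t T) : gam G T = gam (G2 G U) T := by
  rw [gam_eq, gam_eq]
  congr 1
  ext k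
  constructor
  · rintro ⟨l, hl, hk, hlT⟩
    refine ⟨l, ?_, hk, hlT⟩
    rcases cyc_dich hs hl with h | h
    · exfalso
      have : 1 < T.card := by rw [hT.card_eq]; omega
      obtain ⟨a, ha, b, hb, hab⟩ := Finset.one_lt_card.mp this
      have h2 := (hT.isClique ha hb hab).2
      rcases h a (hlT a ha) with h3 | h3
      · rcases h b (hlT b hb) with h4 | h4
        · exact hab (h3.trans h4.symm)
        · exact h2.2 h4
      · exact h2.1 h3
    · exact cyc_G2 hl h
  · rintro ⟨l, hl, hk, hlT⟩
    exact ⟨l, hl.mono (G2_le G U), hk, hlT⟩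

theorem Phi_add [Fintype V] {G : SimpleGraph V} {x : V} {U : Set V} (hs : Sep G x U) {t : ℕ}
    (ht : 2 ≤ t) : Phi G t = Phi (G1 G U) t + Phi (G2 G U) t := by
  classical
  have h1 : Kt G t = Kt (G1 G U) t ∪ Kt (G2 G U) t := by
    ext T
    rw [Finset.mem_union, mem_Kt, mem_Kt, mem_Kt, nclique_G1 hs ht, nclique_G2 ht]
    constructor
    · intro h
      rcases clique_dich hs h with h' | h'
      · exact Or.inl ⟨h, h'⟩
      · exact Or.inr ⟨h, h'⟩
    · rintro (h | h)
      · exact h.1
      · exact h.1
  have h2 : Disjoint (Kt (G1 G U) t) (Kt (G2 G U) t) := by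
    rw [Finset.disjoint_left]
    intro T hT hT'
    rw [mem_Kt] at hT hT'
    have : 1 < T.card := by rw [hT.card_eq]; omega
    obtain ⟨a, ha, b, hb, hab⟩ := Finset.one_lt_card.mp this
    have h3 := (hT.isClique ha hb hab).2
    have h4 := (hT'.isClique ha hb hab).2
    rcases h3 with h3 | h3
    · exact h4.1 h3
    · exact h4.2 h3
  unfold Phi
  rw [h1, Finset.sum_union h2]
  congr 1
  · apply Finset.sum_congr rfl
    intro T hT
    unfold weight
    rw [gam_G1 hs ht (mem_Kt.mp hT)]
  · apply Finset.sum_congr rfl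
    intro T hT
    unfold weight
    rw [gam_G2 hs ht (mem_Kt.mp hT)]

theorem Q_iff [Fintype V] {G : SimpleGraph V} {x : V} {U : Set V} (hs : Sep G x U) {t : ℕ}
    (ht : 2 ≤ t) : Q G t ↔ Q (G1 G U) t ∧ Q (G2 G U) t := by
  constructor
  · rintro ⟨h1, h2⟩
    refine ⟨⟨?_, ?_⟩, ⟨?_, ?_⟩⟩
    · intro l hl a ha b hb hab
      have h3 := cyc_G1_sub hs hl
      refine ⟨h1 l (hl.mono (G1_le G U)) a ha b hb hab, ?_⟩
      rcases h3 a ha with rfl | h4
      · rcases h3 b hb with rfl | h5
        · exact absurd rfl hab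
        · right; exact h5
      · left; exact h4
    · intro a b hab
      obtain ⟨T, hT, haT, hbT⟩ := h2 a b hab.1
      rw [mem_Kt] at hT
      refine ⟨T, ?_, haT, hbT⟩
      rw [mem_Kt, nclique_G1 hs ht]
      refine ⟨hT, ?_⟩
      rcases clique_dich hs hT with h | h
      · exact h
      · exfalso
        rcases hab.2 with h' | h'
        · exact h a haT h'
        · exact h b hbT h'
    · intro l hl a ha b hb hab
      have h3 := cyc_G2_sub hl
      exact ⟨h1 l (hl.mono (G2_le G U)) a ha b hb hab, h3 a ha, h3 b hb⟩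
    · intro a b hab
      obtain ⟨T, hT, haT, hbT⟩ := h2 a b hab.1
      rw [mem_Kt] at hT
      refine ⟨T, ?_, haT, hbT⟩
      rw [mem_Kt, nclique_G2 ht]
      refine ⟨hT, ?_⟩
      rcases clique_dich hs hT with h | h
      · exfalso
        rcases h a haT with h3 | h3
        · rcases h b hbT with h4 | h4
          · exact hab.1.ne (h3.trans h4.symm)
          · exact hab.2.2 h4
        · exact hab.2.1 h3
      · exact h
  · rintro ⟨⟨h1, h2⟩, ⟨h3, h4⟩⟩
    refine ⟨?_, ?_⟩
    · intro l hl a ha b hb hab
      rcases cyc_dich hs hl with h | h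
      · exact (h1 l (cyc_G1 hl h) a ha b hb hab).1
      · exact (h3 l (cyc_G2 hl h) a ha b hb hab).1
    · intro a b hab
      by_cases h : a ∈ U ∨ b ∈ U
      · obtain ⟨T, hT, haT, hbT⟩ := h2 a b ⟨hab, h⟩
        exact ⟨T, mem_Kt.mpr ((mem_Kt.mp hT).mono (G1_le G U)), haT, hbT⟩
      · push Not at h
        obtain ⟨T, hT, haT, hbT⟩ := h4 a b ⟨hab, h⟩
        exact ⟨T, mem_Kt.mpr ((mem_Kt.mp hT).mono (G2_le G U)), haT, hbT⟩

/-! ### The main induction -/

theorem ec_pos_iff [Fintype V] {G : SimpleGraph V} : 0 < ec G ↔ ∃ a b, G.Adj a b := by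
  unfold ec
  rw [Set.ncard_pos (Set.toFinite _)]
  constructor
  · rintro ⟨e, he⟩
    induction e using Sym2.ind with
    | _ a b => exact ⟨a, b, he⟩
  · rintro ⟨a, b, h⟩
    exact ⟨s(a, b), h⟩

theorem twoConn_of_nonsep [Fintype V] {G : SimpleGraph V}
    (h : ¬ ∃ x U, Sep G x U ∧ 0 < ec (G1 G U) ∧ 0 < ec (G2 G U)) : TwoConn G := by
  intro x a b ha hb hax hbx
  by_contra hno
  apply h
  have hxU : x ∉ {u | (G.deleteIncidenceSet x).Reachable a u} := by
    intro hx
    simp only [Set.mem_ofPred_eq] at hx
    obtain ⟨w⟩ := hx.symm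
    cases w with
    | nil => exact hax rfl
    | cons h p =>
      rw [deleteIncidenceSet_adj] at h
      exact h.2.1 rfl
  have hsep : Sep G x {u | (G.deleteIncidenceSet x).Reachable a u} := by
    refine ⟨hxU, ?_⟩
    intro u hu w hw hwx huw
    apply hw
    simp only [Set.mem_ofPred_eq] at hu ⊢
    refine hu.trans (Adj.reachable ?_)
    rw [deleteIncidenceSet_adj]
    refine ⟨huw, ?_, hwx⟩
    rintro rfl
    exact hxU hu
  refine ⟨x, {u | (G.deleteIncidenceSet x).Reachable a u}, hsep, ?_, ?_⟩
  · rw [ec_pos_iff]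
    obtain ⟨d, hd⟩ := (mem_support G).mp ha
    exact ⟨a, d, hd, Or.inl (Reachable.refl a)⟩
  · rw [ec_pos_iff]
    obtain ⟨d, hd⟩ := (mem_support G).mp hb
    refine ⟨b, d, hd, hno, ?_⟩
    intro hdU
    exact hsep.2 d hdU b hno hbx hd.symm

/-- in a 2-connected graph whose cycles span cliques, any two non-isolated vertices are
adjacent -/
theorem complete_of_Q [Fintype V] {G : SimpleGraph V} (h2 : TwoConn G)
    (hQ : ∀ l, Cyc G l → ∀ a ∈ l, ∀ b ∈ l, a ≠ b → G.Adj a b) :
    ∀ a ∈ G.support, ∀ b ∈ G.support, a ≠ b → G.Adj a b := by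
  have htrans : ∀ u w z, G.Adj u w → G.Adj w z → u ≠ z → G.Adj u z := by
    intro u w z huw hwz huz
    obtain ⟨p, hp⟩ := (h2 w u z ⟨w, huw⟩ ⟨w, hwz.symm⟩ huw.ne hwz.ne').exists_isPath
    have hch : p.support.IsChain G.Adj :=
      p.isChain_adj_support.imp (fun _ _ h => (deleteIncidenceSet_le G w) h)
    have hws : w ∉ p.support := by
      have : ∀ {u z : V} (p : (G.deleteIncidenceSet w).Walk u z), u ≠ w → w ∉ p.support := by
        intro u z p
        induction p with
        | nil => intro h; simpa using h.symm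
        | cons h p ih =>
          intro hu
          rw [deleteIncidenceSet_adj] at h
          rw [Walk.support_cons, List.mem_cons, not_or]
          exact ⟨hu.symm, ih h.2.2⟩
      exact this p huw.ne
    have hlen : 2 ≤ p.support.length := by
      rw [Walk.length_support]
      have : p.length ≠ 0 := fun h => huz (Walk.eq_of_length_eq_zero h)
      omega
    have hC : Cyc G (w :: p.support) := by
      refine ⟨by rw [List.length_cons]; omega, List.nodup_cons.mpr ⟨hws, hp.support_nodup⟩, ?_, ?_⟩
      · rw [List.isChain_cons]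
        refine ⟨?_, hch⟩
        intro y hy
        rw [List.head?_eq_some_head p.support_ne_nil, Walk.head_support] at hy
        simp only [Option.mem_def, Option.some.injEq] at hy
        rw [← hy]
        exact huw.symm
      · intro x hx y hy
        rw [List.getLast?_cons_of_ne_nil p.support_ne_nil,
          List.getLast?_eq_some_getLast p.support_ne_nil, Walk.getLast_support] at hx
        simp only [Option.mem_def, Option.some.injEq, List.head?_cons] at hx hy
        rw [← hx, ← hy]
        exact hwz.symm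
    exact hQ _ hC u (List.mem_cons_of_mem _ p.start_mem_support) z
      (List.mem_cons_of_mem _ p.end_mem_support) huz
  have hwalk : ∀ {u z : V} (p : G.Walk u z), u ≠ z → G.Adj u z := by
    intro u z p
    induction p with
    | nil => intro h; exact absurd rfl h
    | @cons u v z h p ih =>
      intro hne
      by_cases hvz : v = z
      · rw [← hvz]; exact h
      · exact htrans u v z h (ih hvz) hne
  intro a ha b hb hab
  by_contra hadj
  -- a vertex `x ≠ a, b`: a neighbour of `a`
  obtain ⟨x, hx⟩ := (mem_support G).mp ha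
  have hxb : x ≠ b := by rintro rfl; exact hadj hx
  obtain ⟨p⟩ := (h2 x a b ha hb hx.ne hxb.symm).mono (deleteIncidenceSet_le G x)
  exact hadj (hwalk p hab)

theorem main_ineq [Fintype V] (t : ℕ) (ht : 3 ≤ t) : ∀ n, ∀ G : SimpleGraph V, ec G ≤ n →
    Phi G t ≤ ec G ∧ (Phi G t = ec G ↔ Q G t) := by
  classical
  intro n
  induction n with
  | zero =>
    intro G hn
    have h0 : ec G = 0 := by omega
    have hno : ¬ ∃ a b, G.Adj a b := by
      rw [← ec_pos_iff]; omega
    push Not at hno
    have hK : Kt G t = ∅ := by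
      rw [Finset.eq_empty_iff_forall_notMem]
      intro T hT
      rw [mem_Kt] at hT
      have : 1 < T.card := by rw [hT.card_eq]; omega
      obtain ⟨a, ha, b, hb, hab⟩ := Finset.one_lt_card.mp this
      exact hno a b (hT.isClique ha hb hab)
    unfold Phi
    rw [hK, Finset.sum_empty, h0]
    refine ⟨by simp, ?_, by simp⟩
    intro _
    refine ⟨?_, fun a b h => absurd h (hno a b)⟩
    intro l hl
    exfalso
    have hlen := hl.1
    rcases l with _ | ⟨a, _ | ⟨b, l⟩⟩
    · simp at hlen
    · simp at hlen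
    · have := hl.2.2.1
      rw [List.isChain_cons_cons] at this
      exact hno a b this.1
  | succ n ih =>
    intro G hn
    rcases Nat.eq_zero_or_pos (ec G) with h0 | hpos
    · exact ih G (by omega)
    by_cases hsep : ∃ x U, Sep G x U ∧ 0 < ec (G1 G U) ∧ 0 < ec (G2 G U)
    · obtain ⟨x, U, hs, hp1, hp2⟩ := hsep
      have he := ec_add G U
      obtain ⟨i1, j1⟩ := ih (G1 G U) (by omega)
      obtain ⟨i2, j2⟩ := ih (G2 G U) (by omega)
      have hPhi := Phi_add hs (show 2 ≤ t by omega)
      rw [hPhi, he, Q_iff hs (show 2 ≤ t by omega), ← j1, ← j2]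
      push_cast
      refine ⟨by linarith, ?_, ?_⟩
      · intro h
        constructor <;> linarith
      · rintro ⟨h1, h2⟩
        rw [h1, h2]
    · have h2 := twoConn_of_nonsep hsep
      have hposq : (0 : ℚ) < ec G := by exact_mod_cast hpos
      obtain ⟨a0, b0, hab0⟩ := ec_pos_iff.mp hpos
      -- the set of non-isolated vertices
      set S : Finset V := Finset.univ.filter (fun x => x ∈ G.support) with hS
      have hSmem : ∀ x, x ∈ G.support ↔ x ∈ S := by intro x; simp [hS]
      have hQΦ : Q G t → Phi G t = ec G := by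
        rintro ⟨q1, q2⟩
        have hcomp := complete_of_Q h2 q1
        obtain ⟨T, hT, _, _⟩ := q2 a0 b0 hab0
        rw [mem_Kt] at hT
        apply complete_case ht hSmem
        · rw [← hT.card_eq]
          apply Finset.card_le_card
          intro x hx
          rw [← hSmem]
          exact clique_sub_support (by omega) hT x hx
        · intro x hx y hy hxy
          rw [← hSmem] at hx hy
          exact hcomp x hx y hy hxy
      by_cases h3 : ∃ a b c, a ∈ G.support ∧ b ∈ G.support ∧ c ∈ G.support ∧
          a ≠ b ∧ a ≠ c ∧ b ≠ c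
      · rcases dirac G h2 h3 with ⟨C, hC, hCs⟩ | ⟨v, hd, C, hC, hvC, hnC, hlen⟩
        · -- Hamiltonian case
          obtain ⟨i1, i2⟩ := ham_case ht hC hCs hpos
          refine ⟨i1, ?_, hQΦ⟩
          intro heq
          obtain ⟨hct, hfull⟩ := i2 heq
          -- all vertices of `C` are pairwise adjacent
          have hcl : ∀ x ∈ C.toFinset, ∀ y ∈ C.toFinset, x ≠ y → G.Adj x y := by
            -- first: every vertex of `C` is adjacent to `a0` or equal to it
            have ha0 : a0 ∈ C.toFinset := List.mem_toFinset.mpr (hCs _ ⟨_, hab0⟩)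
            have hb0 : b0 ∈ C.toFinset := List.mem_toFinset.mpr (hCs _ ⟨_, hab0.symm⟩)
            have hA : ∀ x ∈ C.toFinset, x ≠ a0 → G.Adj x a0 := by
              intro x hx hxa
              by_cases hxb : x = b0
              · rw [hxb]; exact hab0.symm
              · exact (hfull (a0, b0) (mem_DD.mpr hab0) x hx hxa hxb).1
            intro x hx y hy hxy
            by_cases hya : y = a0
            · rw [hya]; rw [hya] at hxy; exact hA x hx hxy
            · by_cases hxa : x = a0
              · rw [hxa]; exact (hA y hy hya).symm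
              · exact (hfull (a0, y) (mem_DD.mpr (hA y hy hya).symm) x hx hxa hxy).2
          refine ⟨?_, ?_⟩
          · intro l hl a ha b hb hab
            have hsup : ∀ y ∈ l, y ∈ C.toFinset := by
              intro y hy
              rw [List.mem_toFinset]
              apply hCs
              obtain ⟨l₁, l₂, h⟩ := List.append_of_mem hy
              rw [h] at hl
              have hrot := hl.rotate
              have hlen := hrot.1
              rw [List.cons_append] at hrot hlen
              rcases hl2 : l₂ ++ l₁ with _ | ⟨z, l₃⟩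
              · rw [hl2] at hlen; simp at hlen
              · rw [hl2] at hrot
                have := hrot.2.2.1
                rw [List.isChain_cons_cons] at this
                exact ⟨z, this.1⟩
            exact hcl a (hsup a ha) b (hsup b hb) hab
          · intro a b hab
            have ha : a ∈ C.toFinset := List.mem_toFinset.mpr (hCs _ ⟨_, hab⟩)
            have hb : b ∈ C.toFinset := List.mem_toFinset.mpr (hCs _ ⟨_, hab.symm⟩)
            obtain ⟨T, hT1, hT2, hT3⟩ := Finset.exists_subsuperset_card_eq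
              (s := {a, b}) (t := C.toFinset) (n := t)
              (by intro x hx; simp only [Finset.mem_insert, Finset.mem_singleton] at hx
                  rcases hx with rfl | rfl <;> assumption)
              (by rw [Finset.card_pair hab.ne]; omega) hct
            refine ⟨T, ?_, hT1 (by simp), hT1 (by simp)⟩
            rw [mem_Kt]
            refine ⟨?_, hT3⟩
            intro x hx y hy hxy
            exact hcl x (hT2 hx) y (hT2 hy) hxy
        · -- a good vertex
          have hgood := good_vertex ht hd hC hvC hnC hlen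
          set G' := G.deleteIncidenceSet v with hG'
          have hle : G' ≤ G := deleteIncidenceSet_le G v
          have hec : ec G = ec G' + G.degree v := by
            have h5 : ec G = G.edgeFinset.card := by
              unfold ec
              rw [← coe_edgeFinset, Set.ncard_coe_finset]
            have h6 : ec G' = G'.edgeFinset.card := by
              unfold ec
              rw [← coe_edgeFinset, Set.ncard_coe_finset]
            have h7 := card_edgeFinset_deleteIncidenceSet G v
            have h8 := G.degree_le_card_edgeFinset v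
            rw [h5, h6, h7]
            omega
          obtain ⟨i1, _⟩ := ih G' (by omega)
          have hsplit : Phi G t = ∑ T ∈ (Kt G t).filter (fun T => v ∈ T), weight G T +
              ∑ T ∈ (Kt G t).filter (fun T => ¬ v ∈ T), weight G T := by
            unfold Phi
            rw [Finset.sum_filter_add_sum_filter_not]
          have hKt' : (Kt G t).filter (fun T => ¬ v ∈ T) = Kt G' t := by
            ext T
            rw [Finset.mem_filter, mem_Kt, mem_Kt]
            constructor
            · rintro ⟨h5, h6⟩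
              refine ⟨?_, h5.card_eq⟩
              intro x hx y hy hxy
              rw [hG', deleteIncidenceSet_adj]
              refine ⟨h5.isClique hx hy hxy, ?_, ?_⟩
              · rintro rfl; exact h6 hx
              · rintro rfl; exact h6 hy
            · intro h5
              refine ⟨h5.mono hle, ?_⟩
              intro hv
              have : 1 < T.card := by rw [h5.card_eq]; omega
              obtain ⟨y, hy, hvy⟩ := Finset.exists_mem_ne this v
              have := h5.isClique hv hy hvy.symm
              rw [hG', deleteIncidenceSet_adj] at this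
              exact this.2.1 rfl
          have hrest : ∑ T ∈ (Kt G t).filter (fun T => ¬ v ∈ T), weight G T ≤ Phi G' t := by
            rw [hKt']
            apply Finset.sum_le_sum
            intro T hT
            exact weight_mono hle ht (mem_Kt.mp hT)
          have hlt : Phi G t < ec G := by
            rw [hsplit, hec]
            push_cast
            linarith
          exact ⟨hlt.le, fun h => absurd h hlt.ne, hQΦ⟩
      · -- fewer than three non-isolated vertices
        have hSc : S.card < t := by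
          have : S.card < 3 := by
            by_contra hcon
            push Not at hcon
            obtain ⟨a, ha, b, hb, c, hc, hab, hac, hbc⟩ := Finset.two_lt_card.mp hcon
            exact h3 ⟨a, b, c, (hSmem a).mpr ha, (hSmem b).mpr hb, (hSmem c).mpr hc, hab, hac, hbc⟩
          omega
        have hK := Kt_empty_of_small ht (fun x hx => (hSmem x).mp hx) hSc
        have hΦ : Phi G t = 0 := by
          unfold Phi
          rw [hK, Finset.sum_empty]
        rw [hΦ]
        refine ⟨hposq.le, fun h => absurd h hposq.ne, ?_⟩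
        rintro ⟨_, q2⟩
        obtain ⟨T, hT, _⟩ := q2 a0 b0 hab0
        rw [hK] at hT
        simp at hT

end Pool.Agent.MP_18736b_co
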